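import Mathlib
import Pool.Agent.E8helper16.SL.A
import Pool.Agent.E8helper16.SL.B
import Pool.Agent.E8helper16.SL.C

set_option autoImplicit false

/-! The correlations of the sieve weights along two linear forms. -/

namespace Pool.Agent.E8helper16.SL
open Finset
open Pool.Agent.H373R2.T7

/-- no `n + s i` has a prime factor at most `z` -/
def Rough {f : ℕ} (s : Fin f → ℤ) (z : ℕ) (n : ℤ) : Prop := ∀ l ∈ pz z, ∀ i, ¬ (l : ℤ) ∣ n + s i

open Classical in
/-- the normalised sieve weight -/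
noncomputable def nu {f : ℕ} (s : Fin f → ℤ) (z : ℕ) (n : ℤ) : ℝ := if Rough s z n then ((Vz z) ^ f)⁻¹ else 0

lemma nu_nonneg {f : ℕ} (s : Fin f → ℤ) (z : ℕ) (n : ℤ) : 0 ≤ nu s z n := by
  unfold nu
  split_ifs
  · exact inv_nonneg.2 (pow_nonneg (Vz_pos z).le _)
  · exact le_rfl

lemma nu_le {f : ℕ} (s : Fin f → ℤ) (z : ℕ) (n : ℤ) : nu s z n ≤ ((Vz z) ^ f)⁻¹ := by
  unfold nu
  split_ifs
  · exact le_rfl
  · exact inv_nonneg.2 (pow_nonneg (Vz_pos z).le _)

/-- the linear form `d m - a` is not degenerate for the shifts `s` -/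
def Nd {f : ℕ} (s : Fin f → ℤ) (d : ℕ) (a : ℤ) : Prop := ∀ l : ℕ, l.Prime → l ∣ d → ∀ k, ¬ (l : ℤ) ∣ s k - a

lemma nd_prime {f : ℕ} (s : Fin f → ℤ) {p : ℕ} (hp : p.Prime) (a : ℤ) (h : ∀ k, ¬ (p : ℤ) ∣ s k - a) : Nd s p a := by
  intro l hl hlp k
  rw [(Nat.prime_dvd_prime_iff_eq hl hp).1 hlp]
  exact h k

lemma nd_one {f : ℕ} (s : Fin f → ℤ) (a : ℤ) : Nd s 1 a := by
  intro l hl h
  exact absurd (Nat.dvd_one.1 h) hl.one_lt.ne'

section pair
variable {f : ℕ} (s : Fin f → ℤ) (d d' : ℕ) (a a' : ℤ)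

/-- coefficients -/
def al : Fin f ⊕ Fin f → ℤ := Sum.elim (fun _ => (d : ℤ)) (fun _ => (d' : ℤ))
/-- constants -/
def be : Fin f ⊕ Fin f → ℤ := Sum.elim (fun k => s k - a) (fun k => s k - a')
/-- active forms -/
def act (z1 z2 l : ℕ) : Fin f ⊕ Fin f → Prop := Sum.elim (fun _ => l ≤ z1) (fun _ => l ≤ z2)
/-- only the first family -/
def actL (_l : ℕ) : Fin f ⊕ Fin f → Prop := Sum.elim (fun _ => True) (fun _ => False)
/-- only the second family -/
def actR (_l : ℕ) : Fin f ⊕ Fin f → Prop := Sum.elim (fun _ => False) (fun _ => True)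
/-- both families -/
def actB (_l : ℕ) : Fin f ⊕ Fin f → Prop := Sum.elim (fun _ => True) (fun _ => True)

lemma rough_iff (z z1 z2 : ℕ) (h1 : z1 ≤ z) (h2 : z2 ≤ z) (m : ℕ) :
    (Rough s z1 (d * m - a) ∧ Rough s z2 (d' * m - a')) ↔
      ∀ l ∈ pz z, ¬ Bad (act (f := f) z1 z2) (al d d') (be s a a') l m := by
  unfold Rough Bad
  constructor
  · rintro ⟨q1, q2⟩ l hl ⟨k, hk, hd⟩
    rw [mem_pz] at hl
    rcases k with k | k
    · exact q1 l (mem_pz.2 ⟨hk, hl.2⟩) k (by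
        have e : (d : ℤ) * m - a + s k = al (f := f) d d' (Sum.inl k) * m + be s a a' (Sum.inl k) := by
          simp only [al, be, Sum.elim_inl]; ring
        rw [e]; exact hd)
    · exact q2 l (mem_pz.2 ⟨hk, hl.2⟩) k (by
        have e : (d' : ℤ) * m - a' + s k = al (f := f) d d' (Sum.inr k) * m + be s a a' (Sum.inr k) := by
          simp only [al, be, Sum.elim_inr]; ring
        rw [e]; exact hd)
  · intro h
    constructor
    · intro l hl k hd
      rw [mem_pz] at hl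
      apply h l (mem_pz.2 ⟨hl.1.trans h1, hl.2⟩)
      refine ⟨Sum.inl k, hl.1, ?_⟩
      have e : (d : ℤ) * m - a + s k = al (f := f) d d' (Sum.inl k) * m + be s a a' (Sum.inl k) := by
          simp only [al, be, Sum.elim_inl]; ring
      rw [← e]; exact hd
    · intro l hl k hd
      rw [mem_pz] at hl
      apply h l (mem_pz.2 ⟨hl.1.trans h2, hl.2⟩)
      refine ⟨Sum.inr k, hl.1, ?_⟩
      have e : (d' : ℤ) * m - a' + s k = al (f := f) d d' (Sum.inr k) * m + be s a a' (Sum.inr k) := by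
          simp only [al, be, Sum.elim_inr]; ring
      rw [← e]; exact hd

lemma nd_pair (h : Nd s d a) (h' : Nd s d' a') (ac : ℕ → Fin f ⊕ Fin f → Prop) :
    ∀ l : ℕ, l.Prime → ∀ k, ac l k → ¬ ((l : ℤ) ∣ al (f := f) d d' k ∧ (l : ℤ) ∣ be s a a' k) := by
  intro l hl k _ hk
  rcases k with k | k
  · simp only [al, be, Sum.elim_inl] at hk
    exact h l hl (Int.natCast_dvd_natCast.1 hk.1) k hk.2
  · simp only [al, be, Sum.elim_inr] at hk
    exact h' l hl (Int.natCast_dvd_natCast.1 hk.1) k hk.2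

lemma pair_PerB (h : Nd s d a) (h' : Nd s d' a') (ac : ℕ → Fin f ⊕ Fin f → Prop) :
    PerB (Bad ac (al d d') (be s a a')) (2 * f) :=
  bad_PerB ac _ _ (2 * f) (by rw [Fintype.card_sum, Fintype.card_fin]; omega) (nd_pair s d d' a a' h h' ac)

/-- the number of the classes for both families -/
noncomputable def NB (l : ℕ) : ℕ := nuB (Bad (actB (f := f)) (al d d') (be s a a')) l
/-- the number of the classes for the first family -/
noncomputable def NL (l : ℕ) : ℕ := nuB (Bad (actL (f := f)) (al d d') (be s a a')) l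
/-- the number of the classes for the second family -/
noncomputable def NR (l : ℕ) : ℕ := nuB (Bad (actR (f := f)) (al d d') (be s a a')) l

lemma act_both (z1 z2 l : ℕ) (h1 : l ≤ z1) (h2 : l ≤ z2) :
    nuB (Bad (act (f := f) z1 z2) (al d d') (be s a a')) l = NB s d d' a a' l := by
  apply nuB_congr
  intro m
  unfold Bad
  apply exists_congr
  intro k
  rcases k with k | k <;> simp [act, actB, h1, h2]

lemma act_left (z1 z2 l : ℕ) (h1 : l ≤ z1) (h2 : z2 < l) :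
    nuB (Bad (act (f := f) z1 z2) (al d d') (be s a a')) l = NL s d d' a a' l := by
  apply nuB_congr
  intro m
  unfold Bad
  apply exists_congr
  intro k
  rcases k with k | k <;> simp [act, actL, h1, h2]

lemma act_right (z1 z2 l : ℕ) (h1 : z1 < l) (h2 : l ≤ z2) :
    nuB (Bad (act (f := f) z1 z2) (al d d') (be s a a')) l = NR s d d' a a' l := by
  apply nuB_congr
  intro m
  unfold Bad
  apply exists_congr
  intro k
  rcases k with k | k <;> simp [act, actR, h1, h2]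

lemma act_none (z1 z2 l : ℕ) (h1 : z1 < l) (h2 : z2 < l) :
    nuB (Bad (act (f := f) z1 z2) (al d d') (be s a a')) l = 0 := by
  classical
  unfold nuB
  rw [card_eq_zero, filter_eq_empty_iff]
  rintro m _ ⟨k, hk, _⟩
  rcases k with k | k
  · exact absurd hk (by simp [act, h1])
  · exact absurd hk (by simp [act, h2])

/-- the primes in `(w, z]` -/
def mid (w z : ℕ) : Finset ℕ := (pz z).filter (fun l => w < l)

lemma mem_mid {w z l : ℕ} : l ∈ mid w z ↔ w < l ∧ l ≤ z ∧ l.Prime := by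
  unfold mid
  rw [mem_filter, mem_pz]
  tauto

lemma pz_split (w z : ℕ) (h : w ≤ z) : pz z = pz w ∪ mid w z := by
  ext l
  rw [mem_union, mem_mid, mem_pz, mem_pz]
  constructor
  · rintro ⟨h1, h2⟩
    rcases Nat.lt_or_ge w l with h3 | h3
    · exact Or.inr ⟨h3, h1, h2⟩
    · exact Or.inl ⟨h3, h2⟩
  · rintro (⟨h1, h2⟩ | ⟨h1, h2, h3⟩)
    · exact ⟨h1.trans h, h2⟩
    · exact ⟨h2, h3⟩

lemma pz_disj (w z : ℕ) : Disjoint (pz w) (mid w z) := by
  rw [disjoint_left]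
  intro l h1 h2
  rw [mem_pz] at h1
  rw [mem_mid] at h2
  omega

lemma Vz_split (w z : ℕ) (h : w ≤ z) : Vz z = Vz w * ∏ l ∈ mid w z, (1 - 1 / (l : ℝ)) := by
  unfold Vz
  rw [pz_split w z h, prod_union (pz_disj w z)]

/-- `(∏ (1 - 1/l) ^ k)⁻¹ ∏ (1 - N l / l) = TT` -/
lemma TT_eq (S : Finset ℕ) (k : ℕ) (N : ℕ → ℕ) :
    ((∏ l ∈ S, (1 - 1 / (l : ℝ))) ^ k)⁻¹ * ∏ l ∈ S, (1 - (N l : ℝ) / l) = TT S k N := by
  unfold TT
  rw [← prod_pow, ← prod_inv_distrib, ← prod_mul_distrib]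

/-- the sum of the product of the weights -/
noncomputable def SS (X z1 z2 : ℕ) : ℝ := ∑ m ∈ Icc 1 X, nu s z1 (d * m - a) * nu s z2 (d' * m - a')

open Classical in
/-- the count -/
noncomputable def CC (X z z1 z2 : ℕ) : ℝ :=
  ((((Icc 1 X).filter (fun m : ℕ => ∀ l ∈ pz z, ¬ Bad (act (f := f) z1 z2) (al d d') (be s a a') l m)).card : ℕ) : ℝ)

lemma SS_eq (X z z1 z2 : ℕ) (h1 : z1 ≤ z) (h2 : z2 ≤ z) :
    SS s d d' a a' X z1 z2 = ((Vz z1) ^ f)⁻¹ * ((Vz z2) ^ f)⁻¹ * CC s d d' a a' X z z1 z2 := by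
  classical
  unfold SS CC
  rw [mul_comm, ← nsmul_eq_mul, ← sum_const, sum_filter]
  apply sum_congr rfl
  intro m _
  have h := rough_iff s d d' a a' z z1 z2 h1 h2 m
  unfold nu
  by_cases q : ∀ l ∈ pz z, ¬ Bad (act (f := f) z1 z2) (al d d') (be s a a') l m
  · obtain ⟨q1, q2⟩ := h.2 q
    rw [if_pos q1, if_pos q2, if_pos q]
  · rw [if_neg q]
    by_cases q1 : Rough s z1 (d * m - a)
    · have q2 : ¬ Rough s z2 (d' * m - a') := fun q2 => q (h.1 ⟨q1, q2⟩)
      rw [if_neg q2, mul_zero]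
    · rw [if_neg q1, zero_mul]

/-- the main factor of the small primes -/
noncomputable def GG (w : ℕ) : ℝ := ((Vz w) ^ (2 * f))⁻¹ * ∏ l ∈ pz w, (1 - (NB s d d' a a' l : ℝ) / l)

lemma fac_nonneg (Q : ℕ → ℕ → Prop) {l : ℕ} (hl : l.Prime) : 0 ≤ 1 - (nuB Q l : ℝ) / l := by
  have h0 : (0 : ℝ) < l := by exact_mod_cast hl.pos
  have : (nuB Q l : ℝ) / l ≤ 1 := by
    rw [div_le_one h0]
    exact_mod_cast nuB_le Q l
  linarith

lemma GG_nonneg (w : ℕ) : 0 ≤ GG s d d' a a' w := by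
  unfold GG
  apply mul_nonneg (inv_nonneg.2 (pow_nonneg (Vz_pos w).le _))
  apply prod_nonneg
  intro l hl
  exact fac_nonneg _ (mem_pz.1 hl).2

lemma GG_le (w : ℕ) : GG s d d' a a' w ≤ ((Vz w) ^ (2 * f))⁻¹ := by
  unfold GG
  apply mul_le_of_le_one_right (inv_nonneg.2 (pow_nonneg (Vz_pos w).le _))
  apply prod_le_one
  · intro l hl
    exact fac_nonneg _ (mem_pz.1 hl).2
  · intro l _
    have : (0 : ℝ) ≤ (NB s d d' a a' l : ℝ) / l := by positivity
    linarith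

/-- the product of the densities of the system with the thresholds `z1`, `z2` -/
noncomputable def PP (z z1 z2 : ℕ) : ℝ :=
  ∏ l ∈ pz z, (1 - (nuB (Bad (act (f := f) z1 z2) (al d d') (be s a a')) l : ℝ) / l)

lemma PP_nonneg (z z1 z2 : ℕ) : 0 ≤ PP s d d' a a' z z1 z2 :=
  prod_nonneg fun _ hl => fac_nonneg _ (mem_pz.1 hl).2

lemma main_zz (w z : ℕ) (h : w ≤ z) :
    ((Vz z) ^ f)⁻¹ * ((Vz z) ^ f)⁻¹ * PP s d d' a a' z z z = GG s d d' a a' w * TT (mid w z) (2 * f) (NB s d d' a a') := by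
  unfold PP GG
  rw [pz_split w z h, prod_union (pz_disj w z), Vz_split w z h, ← TT_eq]
  have e1 : ∏ l ∈ pz w, (1 - (nuB (Bad (act (f := f) z z) (al d d') (be s a a')) l : ℝ) / l) =
      ∏ l ∈ pz w, (1 - (NB s d d' a a' l : ℝ) / l) := by
    apply prod_congr rfl
    intro l hl
    rw [mem_pz] at hl
    rw [act_both s d d' a a' z z l (hl.1.trans h) (hl.1.trans h)]
  have e2 : ∏ l ∈ mid w z, (1 - (nuB (Bad (act (f := f) z z) (al d d') (be s a a')) l : ℝ) / l) =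
      ∏ l ∈ mid w z, (1 - (NB s d d' a a' l : ℝ) / l) := by
    apply prod_congr rfl
    intro l hl
    rw [mem_mid] at hl
    rw [act_both s d d' a a' z z l hl.2.1 hl.2.1]
  rw [e1, e2, two_mul, pow_add, pow_add, mul_pow]
  simp only [mul_inv]
  ring

lemma main_zw (w z : ℕ) (h : w ≤ z) :
    ((Vz z) ^ f)⁻¹ * ((Vz w) ^ f)⁻¹ * PP s d d' a a' z z w = GG s d d' a a' w * TT (mid w z) f (NL s d d' a a') := by
  unfold PP GG
  rw [pz_split w z h, prod_union (pz_disj w z), Vz_split w z h, ← TT_eq]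
  have e1 : ∏ l ∈ pz w, (1 - (nuB (Bad (act (f := f) z w) (al d d') (be s a a')) l : ℝ) / l) =
      ∏ l ∈ pz w, (1 - (NB s d d' a a' l : ℝ) / l) := by
    apply prod_congr rfl
    intro l hl
    rw [mem_pz] at hl
    rw [act_both s d d' a a' z w l (hl.1.trans h) hl.1]
  have e2 : ∏ l ∈ mid w z, (1 - (nuB (Bad (act (f := f) z w) (al d d') (be s a a')) l : ℝ) / l) =
      ∏ l ∈ mid w z, (1 - (NL s d d' a a' l : ℝ) / l) := by
    apply prod_congr rfl
    intro l hl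
    rw [mem_mid] at hl
    rw [act_left s d d' a a' z w l hl.2.1 hl.1]
  rw [e1, e2, two_mul, pow_add, mul_pow]
  simp only [mul_inv]
  ring

lemma main_wz (w z : ℕ) (h : w ≤ z) :
    ((Vz w) ^ f)⁻¹ * ((Vz z) ^ f)⁻¹ * PP s d d' a a' z w z = GG s d d' a a' w * TT (mid w z) f (NR s d d' a a') := by
  unfold PP GG
  rw [pz_split w z h, prod_union (pz_disj w z), Vz_split w z h, ← TT_eq]
  have e1 : ∏ l ∈ pz w, (1 - (nuB (Bad (act (f := f) w z) (al d d') (be s a a')) l : ℝ) / l) =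
      ∏ l ∈ pz w, (1 - (NB s d d' a a' l : ℝ) / l) := by
    apply prod_congr rfl
    intro l hl
    rw [mem_pz] at hl
    rw [act_both s d d' a a' w z l hl.1 (hl.1.trans h)]
  have e2 : ∏ l ∈ mid w z, (1 - (nuB (Bad (act (f := f) w z) (al d d') (be s a a')) l : ℝ) / l) =
      ∏ l ∈ mid w z, (1 - (NR s d d' a a' l : ℝ) / l) := by
    apply prod_congr rfl
    intro l hl
    rw [mem_mid] at hl
    rw [act_right s d d' a a' w z l hl.1 hl.2.1]
  rw [e1, e2, two_mul, pow_add, mul_pow]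
  simp only [mul_inv]
  ring

lemma main_ww (w z : ℕ) (h : w ≤ z) :
    ((Vz w) ^ f)⁻¹ * ((Vz w) ^ f)⁻¹ * PP s d d' a a' z w w = GG s d d' a a' w := by
  unfold PP GG
  rw [pz_split w z h, prod_union (pz_disj w z)]
  have e1 : ∏ l ∈ pz w, (1 - (nuB (Bad (act (f := f) w w) (al d d') (be s a a')) l : ℝ) / l) =
      ∏ l ∈ pz w, (1 - (NB s d d' a a' l : ℝ) / l) := by
    apply prod_congr rfl
    intro l hl
    rw [mem_pz] at hl
    rw [act_both s d d' a a' w w l hl.1 hl.1]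
  have e2 : ∏ l ∈ mid w z, (1 - (nuB (Bad (act (f := f) w w) (al d d') (be s a a')) l : ℝ) / l) = 1 := by
    apply prod_eq_one
    intro l hl
    rw [mem_mid] at hl
    rw [act_none s d d' a a' w w l hl.1 hl.1]
    simp
  rw [e1, e2, two_mul, pow_add]
  simp only [mul_inv]
  ring

end pair

end Pool.Agent.E8helper16.SL
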