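import Mathlib
import Pool.Agent.E8helper16.SL.E

set_option autoImplicit false

/-! The covariance of the sieve weights along two linear forms. -/

namespace Pool.Agent.E8helper16.SL
open Finset
open Pool.Agent.H373R2.T7

open Classical in
/-- the fundamental lemma at the level `z` -/
def FL (f b x z : ℕ) : Prop := ∀ Q : ℕ → ℕ → Prop, PerB Q (2 * f) → ∀ X : ℕ,
  |((((Icc 1 X).filter (fun n : ℕ => ∀ p ∈ pz z, ¬ Q p n)).card : ℕ) : ℝ) -
      X * ∏ p ∈ pz z, (1 - (nuB Q p : ℝ) / p)| ≤ (1 / 2 : ℝ) ^ b * (X * ∏ p ∈ pz z, (1 - (nuB Q p : ℝ) / p)) + √(x : ℝ)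

lemma fl_exists (f : ℕ) (hf : 1 ≤ f) : ∃ C0 : ℕ, 1 ≤ C0 ∧ ∀ b : ℕ, C0 ≤ b → ∃ x0 : ℕ, ∀ x z : ℕ, x0 ≤ z →
    z ^ (16 * (C0 * b)) ≤ x → FL f b x z := by
  obtain ⟨C0, h0, h1⟩ := sysb (2 * f) (by omega)
  refine ⟨C0, h0, fun b hb => ?_⟩
  obtain ⟨x0, h2⟩ := h1 b hb
  refine ⟨x0, fun x z hz hx Q hQ X => ?_⟩
  have := h2 x z hz hx Q hQ X
  convert this

section cov
variable {f : ℕ} (s : Fin f → ℤ) (d d' : ℕ) (a a' : ℤ)

lemma Vz_anti {w z : ℕ} (h : w ≤ z) : Vz z ≤ Vz w := by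
  rw [Vz_split w z h]
  apply mul_le_of_le_one_right (Vz_pos w).le
  apply prod_le_one
  · intro l hl
    rw [mem_mid] at hl
    have hl2 : (2 : ℝ) ≤ l := by exact_mod_cast hl.2.2.two_le
    have hx1 : 1 / (l : ℝ) ≤ 1 / 2 := one_div_le_one_div_of_le (by norm_num) hl2
    linarith
  · intro l _
    have : (0 : ℝ) ≤ 1 / (l : ℝ) := by positivity
    linarith

lemma SS_approx {b x z : ℕ} (hFL : FL f b x z) (h : Nd s d a) (h' : Nd s d' a') (X z1 z2 : ℕ) (h1 : z1 ≤ z) (h2 : z2 ≤ z) :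
    |SS s d d' a a' X z1 z2 - X * (((Vz z1) ^ f)⁻¹ * ((Vz z2) ^ f)⁻¹ * PP s d d' a a' z z1 z2)| ≤
      (1 / 2 : ℝ) ^ b * (X * (((Vz z1) ^ f)⁻¹ * ((Vz z2) ^ f)⁻¹ * PP s d d' a a' z z1 z2)) +
        ((Vz z) ^ (2 * f))⁻¹ * √(x : ℝ) := by
  classical
  have key := hFL (Bad (act (f := f) z1 z2) (al d d') (be s a a')) (pair_PerB s d d' a a' h h' _) X
  rw [SS_eq s d d' a a' X z z1 z2 h1 h2]
  obtain ⟨v, hv⟩ : ∃ v, v = ((Vz z1) ^ f)⁻¹ * ((Vz z2) ^ f)⁻¹ := ⟨_, rfl⟩
  rw [← hv]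
  have hv0 : 0 ≤ v := by
    rw [hv]
    exact mul_nonneg (inv_nonneg.2 (pow_nonneg (Vz_pos _).le _)) (inv_nonneg.2 (pow_nonneg (Vz_pos _).le _))
  have hvz : v ≤ ((Vz z) ^ (2 * f))⁻¹ := by
    rw [hv, two_mul, pow_add, mul_inv]
    apply mul_le_mul
    · exact inv_anti₀ (pow_pos (Vz_pos _) _) (pow_le_pow_left₀ (Vz_pos _).le (Vz_anti h1) _)
    · exact inv_anti₀ (pow_pos (Vz_pos _) _) (pow_le_pow_left₀ (Vz_pos _).le (Vz_anti h2) _)
    · exact inv_nonneg.2 (pow_nonneg (Vz_pos _).le _)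
    · exact inv_nonneg.2 (pow_nonneg (Vz_pos _).le _)
  have e1 : v * CC s d d' a a' X z z1 z2 - X * (v * PP s d d' a a' z z1 z2) =
      v * (CC s d d' a a' X z z1 z2 - X * PP s d d' a a' z z1 z2) := by ring
  rw [e1, abs_mul, abs_of_nonneg hv0]
  have e2 : |CC s d d' a a' X z z1 z2 - X * PP s d d' a a' z z1 z2| ≤
      (1 / 2 : ℝ) ^ b * (X * PP s d d' a a' z z1 z2) + √(x : ℝ) := by
    unfold CC PP
    convert key
  calc v * |CC s d d' a a' X z z1 z2 - X * PP s d d' a a' z z1 z2| ≤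
        v * ((1 / 2 : ℝ) ^ b * (X * PP s d d' a a' z z1 z2) + √(x : ℝ)) := mul_le_mul_of_nonneg_left e2 hv0
    _ = (1 / 2 : ℝ) ^ b * (X * (v * PP s d d' a a' z z1 z2)) + v * √(x : ℝ) := by ring
    _ ≤ _ := by
        have := mul_le_mul_of_nonneg_right hvz (Real.sqrt_nonneg (x : ℝ))
        linarith

/-- the covariance -/
noncomputable def Cov (X w z : ℕ) : ℝ :=
  ∑ m ∈ Icc 1 X, (nu s z (d * m - a) - nu s w (d * m - a)) * (nu s z (d' * m - a') - nu s w (d' * m - a'))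

lemma Cov_eq (X w z : ℕ) : Cov s d d' a a' X w z =
    SS s d d' a a' X z z - SS s d d' a a' X z w - SS s d d' a a' X w z + SS s d d' a a' X w w := by
  unfold Cov SS
  rw [← sum_sub_distrib, ← sum_sub_distrib, ← sum_add_distrib]
  apply sum_congr rfl
  intro m _
  ring

lemma cov_le {b x w z : ℕ} (hFL : FL f b x z) (hwz : w ≤ z) (h : Nd s d a) (h' : Nd s d' a') (X : ℕ) (T11 T10 T01 : ℝ)
    (e11 : T11 = TT (mid w z) (2 * f) (NB s d d' a a')) (e10 : T10 = TT (mid w z) f (NL s d d' a a'))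
    (e01 : T01 = TT (mid w z) f (NR s d d' a a')) :
    |Cov s d d' a a' X w z| ≤ X * GG s d d' a a' w * (|T11 - 1| + |T10 - 1| + |T01 - 1|) +
      (1 / 2 : ℝ) ^ b * (X * GG s d d' a a' w * (T11 + T10 + T01 + 1)) + 4 * (((Vz z) ^ (2 * f))⁻¹ * √(x : ℝ)) := by
  have a1 := SS_approx s d d' a a' hFL h h' X z z le_rfl le_rfl
  have a2 := SS_approx s d d' a a' hFL h h' X z w le_rfl hwz
  have a3 := SS_approx s d d' a a' hFL h h' X w z hwz le_rfl
  have a4 := SS_approx s d d' a a' hFL h h' X w w hwz hwz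
  rw [main_zz s d d' a a' w z hwz, ← e11] at a1
  rw [main_zw s d d' a a' w z hwz, ← e10] at a2
  rw [main_wz s d d' a a' w z hwz, ← e01] at a3
  rw [main_ww s d d' a a' w z hwz] at a4
  rw [Cov_eq]
  have hG := GG_nonneg s d d' a a' w
  have hX : (0 : ℝ) ≤ X := Nat.cast_nonneg _
  have hXG : 0 ≤ X * GG s d d' a a' w := mul_nonneg hX hG
  have t1 := mul_le_mul_of_nonneg_left (le_abs_self (T11 - 1)) hXG
  have t1' := mul_le_mul_of_nonneg_left (neg_abs_le (T11 - 1)) hXG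
  have t2 := mul_le_mul_of_nonneg_left (le_abs_self (T10 - 1)) hXG
  have t2' := mul_le_mul_of_nonneg_left (neg_abs_le (T10 - 1)) hXG
  have t3 := mul_le_mul_of_nonneg_left (le_abs_self (T01 - 1)) hXG
  have t3' := mul_le_mul_of_nonneg_left (neg_abs_le (T01 - 1)) hXG
  rw [abs_le] at a1 a2 a3 a4
  rw [abs_le]
  constructor
  · nlinarith
  · nlinarith

/-- the first family has at most `f` classes -/
lemma NL_le (h : Nd s d a) (h' : Nd s d' a') {l : ℕ} (hl : l.Prime) : NL s d d' a a' l ≤ f := by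
  classical
  unfold NL
  refine (nuB_le_A _ _ _ l hl (nd_pair s d d' a a' h h' _ l hl)).trans ?_
  have : Aset (actL (f := f)) (al d d') l ⊆ univ.image Sum.inl := by
    intro k hk
    unfold Aset at hk
    rw [mem_filter] at hk
    rcases k with k | k
    · exact mem_image_of_mem _ (mem_univ _)
    · exact absurd hk.2.1 (by simp [actL])
  refine (card_le_card this).trans (card_image_le.trans ?_)
  rw [card_univ, Fintype.card_fin]

lemma NR_le (h : Nd s d a) (h' : Nd s d' a') {l : ℕ} (hl : l.Prime) : NR s d d' a a' l ≤ f := by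
  classical
  unfold NR
  refine (nuB_le_A _ _ _ l hl (nd_pair s d d' a a' h h' _ l hl)).trans ?_
  have : Aset (actR (f := f)) (al d d') l ⊆ univ.image Sum.inr := by
    intro k hk
    unfold Aset at hk
    rw [mem_filter] at hk
    rcases k with k | k
    · exact absurd hk.2.1 (by simp [actR])
    · exact mem_image_of_mem _ (mem_univ _)
  refine (card_le_card this).trans (card_image_le.trans ?_)
  rw [card_univ, Fintype.card_fin]

lemma NB_le (h : Nd s d a) (h' : Nd s d' a') {l : ℕ} (hl : l.Prime) : NB s d d' a a' l ≤ 2 * f := by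
  unfold NB
  refine (nuB_le_card _ _ _ l hl (nd_pair s d d' a a' h h' _ l hl)).trans ?_
  rw [Fintype.card_sum, Fintype.card_fin]
  omega

lemma NL_leP (l : ℕ) : NL s d d' a a' l ≤ l := nuB_le _ _
lemma NR_leP (l : ℕ) : NR s d d' a a' l ≤ l := nuB_le _ _
lemma NB_leP (l : ℕ) : NB s d d' a a' l ≤ l := nuB_le _ _

/-- the shifts differ modulo `l` -/
def Sep (D : ℕ) : Prop := ∀ i j, i ≠ j → s i ≠ s j ∧ |s i - s j| ≤ D

lemma sep_dvd {D : ℕ} (hs : Sep s D) {l : ℕ} (hl : l.Prime) (hD : D < l) {i j : Fin f} (hij : i ≠ j) {e : ℕ}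
    (he : ¬ l ∣ e) (c : ℤ) : ¬ (l : ℤ) ∣ (e : ℤ) * (s j - c) - e * (s i - c) := by
  intro h
  have e1 : (e : ℤ) * (s j - c) - e * (s i - c) = e * (s j - s i) := by ring
  rw [e1] at h
  rcases (Nat.prime_iff_prime_int.1 hl).dvd_or_dvd h with h1 | h1
  · exact he (Int.natCast_dvd_natCast.1 h1)
  · obtain ⟨q1, q2⟩ := hs j i (Ne.symm hij)
    have h2 := Int.le_of_dvd (abs_pos.2 (sub_ne_zero.2 q1)) ((dvd_abs _ _).2 h1)
    have h3 : (D : ℤ) < l := by exact_mod_cast hD
    omega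

lemma NL_eq {D : ℕ} (hs : Sep s D) (h : Nd s d a) (h' : Nd s d' a') {l : ℕ} (hl : l.Prime) (hD : D < l) (hd : ¬ l ∣ d) :
    NL s d d' a a' l = f := by
  classical
  unfold NL
  have hA : Aset (actL (f := f)) (al d d') l = univ.image Sum.inl := by
    ext k
    unfold Aset
    rw [mem_filter]
    rcases k with k | k
    · simp only [mem_univ, actL, al, Sum.elim_inl, true_and, mem_image, Sum.inl.injEq, exists_eq, iff_true]
      intro h1
      exact hd (Int.natCast_dvd_natCast.1 h1)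
    · simp [actL]
  rw [nuB_eq_A _ _ _ l hl (nd_pair s d d' a a' h h' _ l hl)]
  · rw [hA, card_image_of_injective _ Sum.inl_injective, card_univ, Fintype.card_fin]
  · rw [hA]
    intro k hk k' hk' hne
    rw [mem_image] at hk hk'
    obtain ⟨i, _, rfl⟩ := hk
    obtain ⟨j, _, rfl⟩ := hk'
    simp only [al, be, Sum.elim_inl]
    exact sep_dvd s hs hl hD (fun h => hne (by rw [h])) hd a

lemma NR_eq {D : ℕ} (hs : Sep s D) (h : Nd s d a) (h' : Nd s d' a') {l : ℕ} (hl : l.Prime) (hD : D < l) (hd : ¬ l ∣ d') :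
    NR s d d' a a' l = f := by
  classical
  unfold NR
  have hA : Aset (actR (f := f)) (al d d') l = univ.image Sum.inr := by
    ext k
    unfold Aset
    rw [mem_filter]
    rcases k with k | k
    · simp [actR]
    · simp only [mem_univ, actR, al, Sum.elim_inr, true_and, mem_image, Sum.inr.injEq, exists_eq, iff_true]
      intro h1
      exact hd (Int.natCast_dvd_natCast.1 h1)
  rw [nuB_eq_A _ _ _ l hl (nd_pair s d d' a a' h h' _ l hl)]
  · rw [hA, card_image_of_injective _ Sum.inr_injective, card_univ, Fintype.card_fin]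
  · rw [hA]
    intro k hk k' hk' hne
    rw [mem_image] at hk hk'
    obtain ⟨i, _, rfl⟩ := hk
    obtain ⟨j, _, rfl⟩ := hk'
    simp only [al, be, Sum.elim_inr]
    exact sep_dvd s hs hl hD (fun h => hne (by rw [h])) hd a'

/-- the determinant of the forms `i`, `j` -/
def Dt (i j : Fin f) : ℤ := d * (s j - a') - d' * (s i - a)

lemma NB_eq {D : ℕ} (hs : Sep s D) (h : Nd s d a) (h' : Nd s d' a') {l : ℕ} (hl : l.Prime) (hD : D < l) (hd : ¬ l ∣ d)
    (hd' : ¬ l ∣ d') (hΔ : ∀ i j, ¬ (l : ℤ) ∣ Dt s d d' a a' i j) :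
    NB s d d' a a' l = 2 * f := by
  classical
  unfold NB
  have hA : Aset (actB (f := f)) (al d d') l = univ := by
    ext k
    unfold Aset
    rw [mem_filter]
    rcases k with k | k
    · simp only [mem_univ, actB, al, Sum.elim_inl, true_and, iff_true]
      intro h1
      exact hd (Int.natCast_dvd_natCast.1 h1)
    · simp only [mem_univ, actB, al, Sum.elim_inr, true_and, iff_true]
      intro h1
      exact hd' (Int.natCast_dvd_natCast.1 h1)
  rw [nuB_eq_A _ _ _ l hl (nd_pair s d d' a a' h h' _ l hl)]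
  · rw [hA, card_univ, Fintype.card_sum, Fintype.card_fin]
    omega
  · intro k _ k' _ hne
    rcases k with i | i <;> rcases k' with j | j
    · simp only [al, be, Sum.elim_inl]
      exact sep_dvd s hs hl hD (fun h => hne (by rw [h])) hd a
    · simp only [al, be, Sum.elim_inl, Sum.elim_inr]
      exact hΔ i j
    · simp only [al, be, Sum.elim_inl, Sum.elim_inr]
      intro h1
      apply hΔ j i
      unfold Dt
      rw [← dvd_neg]
      have e : -((d : ℤ) * (s i - a') - d' * (s j - a)) = d' * (s j - a) - d * (s i - a') := by ring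
      rw [e]
      exact h1
    · simp only [al, be, Sum.elim_inr]
      exact sep_dvd s hs hl hD (fun h => hne (by rw [h])) hd' a'

end cov

end Pool.Agent.E8helper16.SL
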