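import Mathlib
import Pool.Agent.E8helper16.SL.E3

set_option autoImplicit false

/-! The average of the products over the bad primes. -/

namespace Pool.Agent.E8helper16.SL
open Finset
open Pool.Agent.H373R2.T7
open Pool.Agent.TH891.SG (one_le_prodR prod_union_le prod_biUnion_le' pow_convex)

lemma prod_sub_one_le {ι : Type} (t : Finset ι) (x : ι → ℝ) (hx : ∀ i ∈ t, 1 ≤ x i) :
    ∏ i ∈ t, x i ≤ 1 + ∑ i ∈ t, (x i ^ t.card - 1) := by
  classical
  rcases t.eq_empty_or_nonempty with h | h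
  · rw [h]; simp
  · obtain ⟨j, hj, hjm⟩ := exists_max_image t x h
    have h1 : ∏ i ∈ t, x i ≤ x j ^ t.card := by
      calc ∏ i ∈ t, x i ≤ ∏ _i ∈ t, x j := prod_le_prod (fun i hi => by linarith [hx i hi]) (fun i hi => hjm i hi)
        _ = x j ^ t.card := by rw [prod_const]
    have h2 : x j ^ t.card - 1 ≤ ∑ i ∈ t, (x i ^ t.card - 1) :=
      single_le_sum (f := fun i => x i ^ t.card - 1) (fun i hi => by
        have := one_le_pow₀ (hx i hi) (n := t.card)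
        linarith) hj
    linarith

lemma big_primes (Δ : ℤ) (hΔ : Δ ≠ 0) (K : ℕ) (hK : Δ.natAbs ≤ 2 ^ K) (S : Finset ℕ)
    (hS : ∀ l ∈ S, l.Prime ∧ (l : ℤ) ∣ Δ) : S.card ≤ K := by
  have h1 : ∏ l ∈ S, l ∣ Δ.natAbs := by
    apply Finset.prod_primes_dvd
    · intro l hl
      exact (hS l hl).1.prime
    · intro l hl
      exact Int.natCast_dvd.1 (hS l hl).2
  have h2 : ∏ l ∈ S, l ≤ Δ.natAbs := Nat.le_of_dvd (Int.natAbs_pos.2 hΔ) h1
  have h3 : 2 ^ S.card ≤ ∏ l ∈ S, l := by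
    rw [← prod_const]
    exact prod_le_prod (fun _ _ => by omega) (fun l hl => (hS l hl).1.two_le)
  exact (Nat.pow_le_pow_iff_right (by norm_num)).1 (h3.trans (h2.trans hK))

lemma prod_exp (S : Finset ℕ) (C : ℝ) (hC : 0 ≤ C) (g : ℕ → ℝ) (hg : ∀ l ∈ S, 0 ≤ g l) :
    ∏ l ∈ S, (1 + C * g l) ≤ Real.exp (C * ∑ l ∈ S, g l) := by
  rw [mul_sum, Real.exp_sum]
  apply prod_le_prod
  · intro l hl
    have := mul_nonneg hC (hg l hl)
    linarith
  · intro l _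
    have := Real.add_one_le_exp (C * g l)
    linarith

lemma large_part (Δ : ℤ) (hΔ : Δ ≠ 0) (K : ℕ) (hK : Δ.natAbs ≤ 2 ^ K) (y : ℕ) (hy : 1 ≤ y) (C : ℝ) (hC : 0 ≤ C) (S : Finset ℕ)
    (hS : ∀ l ∈ S, l.Prime ∧ y < l ∧ (l : ℤ) ∣ Δ) : ∏ l ∈ S, (1 + C / (l : ℝ)) ≤ Real.exp (C * K / y) := by
  have hy0 : (0 : ℝ) < y := by exact_mod_cast hy
  have h1 := big_primes Δ hΔ K hK S (fun l hl => ⟨(hS l hl).1, (hS l hl).2.2⟩)
  have h2 : ∏ l ∈ S, (1 + C / (l : ℝ)) = ∏ l ∈ S, (1 + C * (1 / (l : ℝ))) := by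
    apply prod_congr rfl
    intro l _
    ring
  rw [h2]
  refine (prod_exp S C hC (fun l => 1 / (l : ℝ)) (fun _ _ => by positivity)).trans ?_
  apply Real.exp_le_exp.2
  rw [mul_div_assoc]
  apply mul_le_mul_of_nonneg_left _ hC
  calc ∑ l ∈ S, 1 / (l : ℝ) ≤ ∑ _l ∈ S, 1 / (y : ℝ) := by
        apply sum_le_sum
        intro l hl
        exact one_div_le_one_div_of_le hy0 (by exact_mod_cast (hS l hl).2.1.le)
    _ = S.card * (1 / (y : ℝ)) := by rw [sum_const, nsmul_eq_mul]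
    _ ≤ K * (1 / (y : ℝ)) := mul_le_mul_of_nonneg_right (by exact_mod_cast h1) (by positivity)
    _ = _ := by ring

lemma prod_mono_one' {t u : Finset ℕ} (h : t ⊆ u) {f : ℕ → ℝ} (hf : ∀ x, 1 ≤ f x) :
    ∏ x ∈ t, f x ≤ ∏ x ∈ u, f x := by
  classical
  rw [← prod_sdiff h]
  exact le_mul_of_one_le_left (prod_nonneg fun x _ => zero_le_one.trans (hf x))
    (one_le_prodR _ _ fun x _ => hf x)

section avg
variable {f : ℕ} (s : Fin f → ℤ) (d d' : ℕ) (a : ℤ)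

open Classical in
/-- the middle primes up to `y` which do not divide `d` -/
noncomputable def Sy (w z y : ℕ) : Finset ℕ := (mid w z).filter (fun l => l ≤ y ∧ ¬ l ∣ d)

open Classical in
/-- the product over the small bad primes -/
noncomputable def Aij (w z y : ℕ) (C : ℝ) (a' : ℤ) (q : Fin f × Fin f) : ℝ :=
  ∏ l ∈ (Sy d w z y).filter (fun l : ℕ => (l : ℤ) ∣ Dt s d d' a a' q.1 q.2), (1 + C / (l : ℝ))

lemma one_le_Aij (w z y : ℕ) {C : ℝ} (hC : 0 ≤ C) (a' : ℤ) (q : Fin f × Fin f) : 1 ≤ Aij s d d' a w z y C a' q := by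
  unfold Aij
  apply one_le_prodR
  intro l _
  have : (0 : ℝ) ≤ C / l := by positivity
  linarith

lemma U11_le {w z y K : ℕ} (hw : 1 ≤ w) (hy : 1 ≤ y) (hd : d = 1 ∨ d.Prime) (hd' : d' = 1 ∨ d'.Prime) (a' : ℤ)
    (hΔ : ∀ i j, Dt s d d' a a' i j ≠ 0 ∧ (Dt s d d' a a' i j).natAbs ≤ 2 ^ K) :
    U11 s d d' a a' w z ≤ (1 + 4 * (f : ℝ) / w) ^ 2 * (∏ q : Fin f × Fin f, (Aij s d d' a w z y (4 * f) a' q)) *
      Real.exp (4 * f * K / y) ^ (f ^ 2) := by
  classical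
  have hf0 : (0 : ℝ) ≤ 4 * f := by positivity
  have h1F : ∀ l : ℕ, (1 : ℝ) ≤ 1 + 4 * (f : ℝ) / l := fun l => by
    have : (0 : ℝ) ≤ 4 * (f : ℝ) / l := by positivity
    linarith
  unfold U11
  obtain ⟨B1, hB1⟩ : ∃ B, B = (mid w z).filter (fun l => l ∣ d) := ⟨_, rfl⟩
  obtain ⟨B2, hB2⟩ : ∃ B, B = (mid w z).filter (fun l => l ∣ d') := ⟨_, rfl⟩
  obtain ⟨g, hg⟩ : ∃ g : Fin f × Fin f → Finset ℕ, g = fun q => (Sy d w z y).filter (fun l : ℕ => (l : ℤ) ∣ Dt s d d' a a' q.1 q.2) := ⟨_, rfl⟩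
  obtain ⟨g', hg'⟩ : ∃ g : Fin f × Fin f → Finset ℕ, g = fun q => (mid w z).filter (fun l : ℕ => y < l ∧ (l : ℤ) ∣ Dt s d d' a a' q.1 q.2) := ⟨_, rfl⟩
  have hsub : (mid w z).filter (BadP s d d' a a') ⊆ (B1 ∪ B2) ∪ (univ.biUnion g ∪ univ.biUnion g') := by
    intro l hl
    rw [mem_filter] at hl
    obtain ⟨hm, hb⟩ := hl
    by_cases q1 : l ∣ d
    · exact mem_union_left _ (mem_union_left _ (by rw [hB1, mem_filter]; exact ⟨hm, q1⟩))
    rcases hb with hb | hb | ⟨i, j, hb⟩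
    · exact absurd hb q1
    · exact mem_union_left _ (mem_union_right _ (by rw [hB2, mem_filter]; exact ⟨hm, hb⟩))
    · apply mem_union_right
      rcases Nat.lt_or_ge y l with hyl | hyl
      · apply mem_union_right
        rw [mem_biUnion]
        refine ⟨(i, j), mem_univ _, ?_⟩
        rw [hg', mem_filter]
        exact ⟨hm, hyl, hb⟩
      · apply mem_union_left
        rw [mem_biUnion]
        refine ⟨(i, j), mem_univ _, ?_⟩
        rw [hg]
        simp only [mem_filter, Sy]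
        exact ⟨⟨hm, hyl, q1⟩, hb⟩
  have c1 := prod_mono_one' hsub (f := fun l : ℕ => 1 + 4 * (f : ℝ) / l) h1F
  have c2 := prod_union_le (f := fun l : ℕ => 1 + 4 * (f : ℝ) / l) (B1 ∪ B2) (univ.biUnion g ∪ univ.biUnion g') (fun x _ => h1F x)
  have c3 := prod_union_le (f := fun l : ℕ => 1 + 4 * (f : ℝ) / l) B1 B2 (fun x _ => h1F x)
  have c4 := prod_union_le (f := fun l : ℕ => 1 + 4 * (f : ℝ) / l) (univ.biUnion g) (univ.biUnion g') (fun x _ => h1F x)
  have c5 := prod_biUnion_le' (univ : Finset (Fin f × Fin f)) g (fun l : ℕ => 1 + 4 * (f : ℝ) / l) (fun _ _ x _ => h1F x)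
  have c6 := prod_biUnion_le' (univ : Finset (Fin f × Fin f)) g' (fun l : ℕ => 1 + 4 * (f : ℝ) / l) (fun _ _ x _ => h1F x)
  have hpos : ∀ S : Finset ℕ, 0 ≤ ∏ l ∈ S, (1 + 4 * (f : ℝ) / l) := fun S => prod_nonneg fun l _ => by linarith [h1F l]
  have d1 : ∏ l ∈ B1, (1 + 4 * (f : ℝ) / l) ≤ 1 + 4 * (f : ℝ) / w := by
    rw [hB1]
    exact filt_prime w z d (4 * f) hf0 hd hw
  have d2 : ∏ l ∈ B2, (1 + 4 * (f : ℝ) / l) ≤ 1 + 4 * (f : ℝ) / w := by
    rw [hB2]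
    exact filt_prime w z d' (4 * f) hf0 hd' hw
  have d3 : ∏ q : Fin f × Fin f, ∏ l ∈ g' q, (1 + 4 * (f : ℝ) / l) ≤ Real.exp (4 * f * K / y) ^ (f ^ 2) := by
    calc _ ≤ ∏ _q : Fin f × Fin f, Real.exp (4 * f * K / y) := by
          apply prod_le_prod (fun q _ => hpos _)
          intro q _
          rw [hg']
          apply large_part _ (hΔ q.1 q.2).1 K (hΔ q.1 q.2).2 y hy (4 * f) hf0
          intro l hl
          simp only [mem_filter, mem_mid] at hl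
          exact ⟨hl.1.2.2, hl.2⟩
      _ = _ := by
          rw [prod_const, card_univ, Fintype.card_prod, Fintype.card_fin, pow_two]
  have d4 : ∏ q : Fin f × Fin f, ∏ l ∈ g q, (1 + 4 * (f : ℝ) / l) = ∏ q : Fin f × Fin f, (Aij s d d' a w z y (4 * f) a' q) := by
    apply prod_congr rfl
    intro q _
    rw [hg]
    unfold Aij
    rfl
  have hA0 : 0 ≤ ∏ q : Fin f × Fin f, (Aij s d d' a w z y (4 * f) a' q) :=
    prod_nonneg fun q _ => by linarith [one_le_Aij s d d' a w z y hf0 a' q]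
  have hw4 : 0 ≤ 1 + 4 * (f : ℝ) / w := by positivity
  calc ∏ l ∈ (mid w z).filter (BadP s d d' a a'), (1 + 4 * (f : ℝ) / l) ≤
        ∏ l ∈ (B1 ∪ B2) ∪ (univ.biUnion g ∪ univ.biUnion g'), (1 + 4 * (f : ℝ) / l) := c1
    _ ≤ (∏ l ∈ B1 ∪ B2, (1 + 4 * (f : ℝ) / l)) * ∏ l ∈ univ.biUnion g ∪ univ.biUnion g', (1 + 4 * (f : ℝ) / l) := c2
    _ ≤ ((1 + 4 * (f : ℝ) / w) * (1 + 4 * (f : ℝ) / w)) *
        ((∏ q : Fin f × Fin f, (Aij s d d' a w z y (4 * f) a' q)) * Real.exp (4 * f * K / y) ^ (f ^ 2)) := by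
        apply mul_le_mul
        · exact c3.trans (mul_le_mul d1 d2 (hpos _) hw4)
        · refine c4.trans (mul_le_mul (c5.trans (le_of_eq d4)) (c6.trans d3) (hpos _) hA0)
        · exact hpos _
        · positivity
    _ = _ := by ring

lemma Aij_pow (w z y : ℕ) (a' : ℤ) (q : Fin f × Fin f) (r : ℕ) :
    Aij s d d' a w z y (4 * f) a' q ^ r ≤ Aij s d d' a w z y ((1 + 4 * f) ^ r) a' q := by
  unfold Aij
  rw [← prod_pow]
  apply prod_le_prod
  · intro l _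
    positivity
  · intro l hl
    have hl1 : l.Prime := by
      have h1 := (mem_filter.1 hl).1
      unfold Sy at h1
      rw [mem_filter, mem_mid] at h1
      exact h1.1.2.2
    have h2 : (1 : ℝ) ≤ l := by exact_mod_cast hl1.one_le
    have h3 := pow_convex r (C := 4 * (f : ℝ)) (u := 1 / (l : ℝ)) (by positivity) (by positivity)
      (by rw [div_le_one (by linarith)]; exact h2)
    have e1 : 1 + 4 * (f : ℝ) / l = 1 + 4 * (f : ℝ) * (1 / l) := by ring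
    have e2 : 1 + (1 + 4 * (f : ℝ)) ^ r / l = 1 + (1 + 4 * (f : ℝ)) ^ r * (1 / l) := by ring
    rw [e1, e2]
    exact h3

/-- the constant -/
noncomputable def C2 (f : ℕ) : ℝ := (1 + 4 * (f : ℝ)) ^ (f ^ 2)

lemma C2_pos (f : ℕ) : 0 < C2 f := by unfold C2; positivity

/-- the product of the second kind -/
noncomputable def Wy (f d w z y : ℕ) : ℝ := ∏ l ∈ Sy d w z y, (1 + C2 f / (l : ℝ))

lemma Wy_nonneg (w z y : ℕ) : 0 ≤ Wy f d w z y := prod_nonneg fun l _ => by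
  have := C2_pos f
  positivity

lemma sum_Aij {w z y H : ℕ} (hw : 1 ≤ w) (hCw : C2 f ≤ w) (q : Fin f × Fin f) :
    ∑ a' ∈ Icc 1 H, (Aij s d d' a w z y (C2 f) (a' : ℤ) q - 1) ≤ H * (2 * C2 f / w) + Wy f d w z y := by
  classical
  have hw0 : (0 : ℝ) < w := by exact_mod_cast hw
  have hC := C2_pos f
  have h1 := ss1 (Sy d w z y) (fun l hl => by
      unfold Sy at hl
      rw [mem_filter, mem_mid] at hl
      exact hl.1.2.2) (-(d : ℤ)) (d * s q.2 - d' * (s q.1 - a)) (fun l hl => by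
      unfold Sy at hl
      rw [mem_filter] at hl
      intro h
      exact hl.2.2 (Int.natCast_dvd_natCast.1 ((dvd_neg).1 h))) (C2 f) hC.le H
  have h2 : ∑ a' ∈ Icc 1 H, Aij s d d' a w z y (C2 f) (a' : ℤ) q ≤
      H * ∏ l ∈ Sy d w z y, (1 + C2 f / (l : ℝ) ^ 2) + ∏ l ∈ Sy d w z y, (1 + C2 f / (l : ℝ)) := by
    refine le_trans (le_of_eq ?_) h1
    apply sum_congr rfl
    intro a' _
    unfold Aij
    apply prod_congr _ (fun _ _ => rfl)
    apply filter_congr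
    intro l _
    unfold Dt
    have e : (d : ℤ) * (s q.2 - a') - d' * (s q.1 - a) = -(d : ℤ) * a' + (d * s q.2 - d' * (s q.1 - a)) := by ring
    rw [e]
  have h3 : ∏ l ∈ Sy d w z y, (1 + C2 f / (l : ℝ) ^ 2) ≤ 1 + 2 * C2 f / w := by
    have e1 : ∏ l ∈ Sy d w z y, (1 + C2 f / (l : ℝ) ^ 2) = ∏ l ∈ Sy d w z y, (1 + C2 f * (1 / (l : ℝ) ^ 2)) := by
      apply prod_congr rfl
      intro l _
      ring
    rw [e1]
    refine (prod_exp _ _ hC.le _ (fun _ _ => by positivity)).trans ?_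
    have h4 := sum_inv_sq (s := Sy d w z y) hw (fun l hl => by
      unfold Sy at hl
      rw [mem_filter, mem_mid] at hl
      exact hl.1.1)
    have h5 : C2 f * ∑ l ∈ Sy d w z y, 1 / (l : ℝ) ^ 2 ≤ C2 f / w := by
      have := mul_le_mul_of_nonneg_left h4 hC.le
      rw [mul_one_div] at this
      exact this
    have h6 : C2 f / w ≤ 1 := by rw [div_le_one hw0]; exact hCw
    have h7 : 0 ≤ C2 f / w := by positivity
    have h8 := Real.exp_bound_div_one_sub_of_interval h7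
    have h9 : Real.exp (C2 f / w) ≤ 1 + 2 * (C2 f / w) := by
      have := Real.abs_exp_sub_one_le (x := C2 f / w) (by rw [abs_of_nonneg h7]; exact h6)
      rw [abs_of_nonneg h7] at this
      have := (abs_le.1 this).2
      linarith
    calc Real.exp (C2 f * ∑ l ∈ Sy d w z y, 1 / (l : ℝ) ^ 2) ≤ Real.exp (C2 f / w) := Real.exp_le_exp.2 h5
      _ ≤ _ := by rw [mul_div_assoc]; exact h9
  rw [sum_sub_distrib, sum_const, Nat.card_Icc, nsmul_eq_mul, mul_one]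
  have h10 : (H : ℝ) * ∏ l ∈ Sy d w z y, (1 + C2 f / (l : ℝ) ^ 2) ≤ H * (1 + 2 * C2 f / w) :=
    mul_le_mul_of_nonneg_left h3 (Nat.cast_nonneg _)
  have h11 : ((H + 1 - 1 : ℕ) : ℝ) = H := by rw [Nat.add_sub_cancel]
  rw [h11]
  unfold Wy
  linarith

lemma exp_le_two {x : ℝ} (h0 : 0 ≤ x) (h1 : x ≤ 1) : Real.exp x ≤ 1 + 2 * x := by
  have := Real.abs_exp_sub_one_le (x := x) (by rw [abs_of_nonneg h0]; exact h1)
  rw [abs_of_nonneg h0] at this
  have := (abs_le.1 this).2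
  linarith

/-- the constant -/
noncomputable def C3 (f : ℕ) : ℝ := 16 * f + 2 + 6 * (f : ℝ) ^ 2 * C2 f

/-- the average of `U11 - 1` -/
lemma avg_U11 {w z y K H : ℕ} (hw : 1 ≤ w) (hy : 1 ≤ y) (hCw : C2 f ≤ w) (hfw : 8 * f + 1 ≤ w)
    (hKy : 4 * f * K * f ^ 2 * w ≤ y) (hd : d = 1 ∨ d.Prime) (hd' : d' = 1 ∨ d'.Prime) (G : Finset ℕ) (hG : G ⊆ Icc 1 H)
    (hΔ : ∀ a' ∈ G, ∀ i j, Dt s d d' a (a' : ℤ) i j ≠ 0 ∧ (Dt s d d' a (a' : ℤ) i j).natAbs ≤ 2 ^ K) :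
    ∑ a' ∈ G, (U11 s d d' a (a' : ℤ) w z - 1) ≤ H * (C3 f / w) + 3 * (f : ℝ) ^ 2 * Wy f d w z y := by
  classical
  have hw0 : (0 : ℝ) < w := by exact_mod_cast hw
  have hy0 : (0 : ℝ) < y := by exact_mod_cast hy
  have hC := C2_pos f
  obtain ⟨F0, hF0⟩ : ∃ F0, F0 = (1 + 4 * (f : ℝ) / w) ^ 2 * Real.exp (4 * f * K / y) ^ (f ^ 2) := ⟨_, rfl⟩
  have hx1 : (8 * (f : ℝ) + 1) / w ≤ 1 := by
    rw [div_le_one hw0]
    exact_mod_cast hfw
  have hF0e : F0 ≤ Real.exp ((8 * f + 1) / w) := by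
    have g1 : 1 + 4 * (f : ℝ) / w ≤ Real.exp (4 * f / w) := by
      have := Real.add_one_le_exp (4 * (f : ℝ) / w)
      linarith
    have g2 : Real.exp (4 * f * K / y) ^ (f ^ 2) ≤ Real.exp (1 / w) := by
      rw [← Real.exp_nat_mul]
      apply Real.exp_le_exp.2
      rw [mul_div_assoc', div_le_div_iff₀ hy0 hw0]
      have : (4 * (f : ℝ) * K * (f : ℝ) ^ 2 * w) ≤ y := by exact_mod_cast hKy
      push_cast
      linarith
    calc F0 ≤ Real.exp (4 * f / w) ^ 2 * Real.exp (1 / w) := by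
          rw [hF0]
          apply mul_le_mul (pow_le_pow_left₀ (by positivity) g1 2) g2 (by positivity) (by positivity)
      _ = Real.exp ((8 * f + 1) / w) := by
          rw [← Real.exp_nat_mul, ← Real.exp_add]
          congr 1
          push_cast
          field_simp
          ring
  have hF1 : F0 ≤ 1 + 2 * ((8 * f + 1) / w) := hF0e.trans (exp_le_two (by positivity) hx1)
  have hF3 : F0 ≤ 3 := by linarith
  have hF00 : 0 ≤ F0 := by rw [hF0]; positivity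
  have h1 : ∀ a' ∈ G, U11 s d d' a (a' : ℤ) w z - 1 ≤ (F0 - 1) +
      3 * ∑ q : Fin f × Fin f, (Aij s d d' a w z y (C2 f) (a' : ℤ) q - 1) := by
    intro a' ha'
    have g1 := U11_le s d d' a (K := K) (z := z) hw hy hd hd' (a' : ℤ) (hΔ a' ha')
    have g2 := prod_sub_one_le (univ : Finset (Fin f × Fin f)) (Aij s d d' a w z y (4 * f) (a' : ℤ))
      (fun q _ => one_le_Aij s d d' a w z y (by positivity) _ q)
    have g3 : ∑ q : Fin f × Fin f, (Aij s d d' a w z y (4 * f) (a' : ℤ) q ^ (univ : Finset (Fin f × Fin f)).card - 1) ≤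
        ∑ q : Fin f × Fin f, (Aij s d d' a w z y (C2 f) (a' : ℤ) q - 1) := by
      apply sum_le_sum
      intro q _
      rw [card_univ, Fintype.card_prod, Fintype.card_fin, ← pow_two]
      have := Aij_pow s d d' a w z y (a' : ℤ) q (f ^ 2)
      unfold C2
      linarith
    obtain ⟨Sg, hSg⟩ : ∃ t, t = ∑ q : Fin f × Fin f, (Aij s d d' a w z y (C2 f) (a' : ℤ) q - 1) := ⟨_, rfl⟩
    rw [← hSg] at g3 ⊢
    have hSg0 : 0 ≤ Sg := by
      rw [hSg]
      apply sum_nonneg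
      intro q _
      have := one_le_Aij s d d' a w z y hC.le (a' : ℤ) q
      linarith
    have g4 : U11 s d d' a (a' : ℤ) w z ≤ F0 * (1 + Sg) := by
      refine g1.trans ?_
      rw [hF0]
      calc _ = (1 + 4 * (f : ℝ) / w) ^ 2 * Real.exp (4 * f * K / y) ^ (f ^ 2) *
            ∏ q : Fin f × Fin f, (Aij s d d' a w z y (4 * f) (a' : ℤ) q) := by ring
        _ ≤ _ := by
            apply mul_le_mul_of_nonneg_left _ (by positivity)
            linarith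
    nlinarith
  have h2 : ∑ a' ∈ G, (U11 s d d' a (a' : ℤ) w z - 1) ≤ ∑ a' ∈ Icc 1 H, ((2 * ((8 * f + 1) / w)) +
      3 * ∑ q : Fin f × Fin f, (Aij s d d' a w z y (C2 f) (a' : ℤ) q - 1)) := by
    refine (sum_le_sum h1).trans ?_
    refine le_trans (sum_le_sum fun a' _ => (add_le_add (by linarith) le_rfl)) (sum_le_sum_of_subset_of_nonneg hG ?_)
    intro a' _ _
    have : 0 ≤ ∑ q : Fin f × Fin f, (Aij s d d' a w z y (C2 f) (a' : ℤ) q - 1) := by
      apply sum_nonneg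
      intro q _
      have := one_le_Aij s d d' a w z y hC.le (a' : ℤ) q
      linarith
    positivity
  refine h2.trans ?_
  rw [sum_add_distrib, sum_const, Nat.card_Icc, nsmul_eq_mul, ← mul_sum, sum_comm]
  have h3 : ∑ q : Fin f × Fin f, ∑ a' ∈ Icc 1 H, (Aij s d d' a w z y (C2 f) (a' : ℤ) q - 1) ≤
      (f : ℝ) ^ 2 * (H * (2 * C2 f / w) + Wy f d w z y) := by
    refine (sum_le_sum fun q _ => sum_Aij s d d' a (z := z) (y := y) (H := H) hw hCw q).trans (le_of_eq ?_)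
    rw [sum_const, card_univ, Fintype.card_prod, Fintype.card_fin, nsmul_eq_mul]
    push_cast
    ring
  have h11 : ((H + 1 - 1 : ℕ) : ℝ) = H := by rw [Nat.add_sub_cancel]
  rw [h11]
  have h4 : (H : ℝ) * (C3 f / w) = H * (2 * ((8 * f + 1) / w)) + 3 * ((f : ℝ) ^ 2 * (H * (2 * C2 f / w))) := by
    unfold C3
    ring
  rw [h4]
  linarith

end avg

end Pool.Agent.E8helper16.SL
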