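import Mathlib
import Pool.Agent.E8helper16.SL.E4

set_option autoImplicit false

/-! The sum of the covariances. -/

namespace Pool.Agent.E8helper16.SL
open Finset
open Pool.Agent.H373R2.T7

section single
variable {f : ℕ} (s : Fin f → ℤ) (d : ℕ) (a : ℤ)

lemma pz_zero : pz 0 = ∅ := by
  rw [eq_empty_iff_forall_notMem]
  intro l hl
  rw [mem_pz] at hl
  have := hl.2.pos
  omega

lemma Vz_zero : Vz 0 = 1 := by
  unfold Vz
  rw [pz_zero, prod_empty]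

lemma nu_zero (n : ℤ) : nu s 0 n = 1 := by
  unfold nu
  rw [if_pos, Vz_zero]
  · simp
  · intro l hl
    rw [pz_zero] at hl
    simp at hl

/-- the sum of the weights along a form -/
lemma single_le {D b x w z : ℕ} (hf : 1 ≤ f) (hs : Sep s D) (hDw : D ≤ w) (hfw : 16 * f ^ 2 ≤ w) (hFL : FL f b x z)
    (hwz : w ≤ z) (h : Nd s d a) (hd : d = 1 ∨ d.Prime) (X : ℕ) :
    ∑ m ∈ Icc 1 X, nu s z (d * m - a) ≤ 4 * X * ((Vz w) ^ f)⁻¹ + ((Vz z) ^ (2 * f))⁻¹ * √(x : ℝ) := by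
  have h' : Nd s 1 0 := nd_one s 0
  have e1 : ∑ m ∈ Icc 1 X, nu s z (d * m - a) = SS s d 1 a 0 X z 0 := by
    unfold SS
    apply sum_congr rfl
    intro m _
    rw [nu_zero, mul_one]
  have key := SS_approx s d 1 a 0 hFL h h' X z 0 le_rfl (Nat.zero_le _)
  rw [← e1] at key
  have hV0 : (((Vz 0) ^ f)⁻¹ : ℝ) = 1 := by rw [Vz_zero]; simp
  rw [hV0, mul_one] at key
  have e2 : ((Vz z) ^ f)⁻¹ * PP s d 1 a 0 z z 0 ≤ ((Vz w) ^ f)⁻¹ * 2 := by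
    unfold PP
    have e3 : ∏ l ∈ pz z, (1 - (nuB (Bad (act (f := f) z 0) (al d 1) (be s a 0)) l : ℝ) / l) =
        (∏ l ∈ pz w, (1 - (NL s d 1 a 0 l : ℝ) / l)) * ∏ l ∈ mid w z, (1 - (NL s d 1 a 0 l : ℝ) / l) := by
      rw [pz_split w z hwz, prod_union (pz_disj w z)]
      congr 1
      · apply prod_congr rfl
        intro l hl
        rw [mem_pz] at hl
        rw [act_left s d 1 a 0 z 0 l (hl.1.trans hwz) hl.2.pos]
      · apply prod_congr rfl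
        intro l hl
        rw [mem_mid] at hl
        rw [act_left s d 1 a 0 z 0 l hl.2.1 hl.2.2.pos]
    rw [e3, Vz_split w z hwz, mul_pow, mul_inv]
    have e4 : ((Vz w) ^ f)⁻¹ * ((∏ l ∈ mid w z, (1 - 1 / (l : ℝ))) ^ f)⁻¹ *
        ((∏ l ∈ pz w, (1 - (NL s d 1 a 0 l : ℝ) / l)) * ∏ l ∈ mid w z, (1 - (NL s d 1 a 0 l : ℝ) / l)) =
        ((Vz w) ^ f)⁻¹ * ((∏ l ∈ pz w, (1 - (NL s d 1 a 0 l : ℝ) / l)) * TT (mid w z) f (NL s d 1 a 0)) := by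
      rw [← TT_eq]
      ring
    rw [e4]
    apply mul_le_mul_of_nonneg_left _ (inv_nonneg.2 (pow_nonneg (Vz_pos _).le _))
    obtain ⟨-, t2⟩ := T10_bound s d 1 a 0 (z := z) hf hs hDw hfw h h' hd
    have t0 : 0 ≤ TT (mid w z) f (NL s d 1 a 0) := TT_nonneg (fun l hl => (mem_mid.1 hl).2.2.two_le)
      (fun l _ => NL_leP s d 1 a 0 l)
    have t1 : ∏ l ∈ pz w, (1 - (NL s d 1 a 0 l : ℝ) / l) ≤ 1 := by
      apply prod_le_one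
      · intro l hl
        exact fac_nonneg _ (mem_pz.1 hl).2
      · intro l _
        have : (0 : ℝ) ≤ (NL s d 1 a 0 l : ℝ) / l := by positivity
        linarith
    calc _ ≤ 1 * TT (mid w z) f (NL s d 1 a 0) := mul_le_mul_of_nonneg_right t1 t0
      _ ≤ 2 := by linarith
  obtain ⟨P, hP⟩ : ∃ P, P = ((Vz z) ^ f)⁻¹ * PP s d 1 a 0 z z 0 := ⟨_, rfl⟩
  rw [← hP] at key e2
  have hP0 : 0 ≤ P := by
    rw [hP]
    exact mul_nonneg (inv_nonneg.2 (pow_nonneg (Vz_pos _).le _)) (PP_nonneg _ _ _ _ _ _ _ _)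
  have hX : (0 : ℝ) ≤ X := Nat.cast_nonneg _
  have hb1 : (1 / 2 : ℝ) ^ b ≤ 1 := pow_le_one₀ (by norm_num) (by norm_num)
  have k1 := (abs_le.1 key).2
  have k2 : (1 / 2 : ℝ) ^ b * (X * P) ≤ 1 * (X * P) := mul_le_mul_of_nonneg_right hb1 (by positivity)
  have k3 : X * P ≤ X * (((Vz w) ^ f)⁻¹ * 2) := mul_le_mul_of_nonneg_left e2 hX
  linarith

end single

section cov5
variable {f : ℕ} (s : Fin f → ℤ)

lemma absdiff_le {w z : ℕ} (hwz : w ≤ z) (n : ℤ) : |nu s z n - nu s w n| ≤ ((Vz z) ^ f)⁻¹ := by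
  have h1 := nu_nonneg s z n
  have h2 := nu_nonneg s w n
  have h3 := nu_le s z n
  have h4 := nu_le s w n
  have h5 : ((Vz w) ^ f)⁻¹ ≤ ((Vz z) ^ f)⁻¹ :=
    inv_anti₀ (pow_pos (Vz_pos _) _) (pow_le_pow_left₀ (Vz_pos _).le (Vz_anti hwz) _)
  rw [abs_le]
  constructor <;> linarith

/-- the trivial bound -/
lemma cov_triv {D b x w z : ℕ} (hf : 1 ≤ f) (hs : Sep s D) (hDw : D ≤ w) (hfw : 16 * f ^ 2 ≤ w) (hFL : FL f b x z)
    (hwz : w ≤ z) (d d' : ℕ) (a a' : ℤ) (h : Nd s d a) (hd : d = 1 ∨ d.Prime) (X : ℕ) :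
    |Cov s d d' a a' X w z| ≤ ((Vz z) ^ f)⁻¹ * (5 * X * ((Vz w) ^ f)⁻¹ + ((Vz z) ^ (2 * f))⁻¹ * √(x : ℝ)) := by
  have h1 := single_le s d a hf hs hDw hfw hFL hwz h hd X
  unfold Cov
  refine (abs_sum_le_sum_abs _ _).trans ?_
  have h2 : ∑ m ∈ Icc 1 X, |(nu s z (d * m - a) - nu s w (d * m - a)) * (nu s z (d' * m - a') - nu s w (d' * m - a'))| ≤
      ∑ m ∈ Icc 1 X, ((Vz z) ^ f)⁻¹ * (nu s z (d * m - a) + ((Vz w) ^ f)⁻¹) := by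
    apply sum_le_sum
    intro m _
    rw [abs_mul, mul_comm]
    apply mul_le_mul (absdiff_le s hwz _) _ (abs_nonneg _) (inv_nonneg.2 (pow_nonneg (Vz_pos _).le _))
    have q1 := nu_nonneg s z (d * m - a)
    have q2 := nu_nonneg s w (d * m - a)
    have q3 := nu_le s w (d * m - a)
    rw [abs_le]
    constructor <;> linarith
  refine h2.trans ?_
  rw [← mul_sum, sum_add_distrib, sum_const, Nat.card_Icc, nsmul_eq_mul, Nat.add_sub_cancel]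
  apply mul_le_mul_of_nonneg_left _ (inv_nonneg.2 (pow_nonneg (Vz_pos _).le _))
  linarith

open Classical in
/-- the admitted pairs -/
noncomputable def KK (P : Finset ℕ) (H : ℕ) : Finset (ℕ × ℕ) :=
  (P ×ˢ Icc 1 H).filter (fun κ => ∀ k, ¬ (κ.1 : ℤ) ∣ s k - κ.2)

lemma mem_KK {P : Finset ℕ} {H : ℕ} {κ : ℕ × ℕ} : κ ∈ KK s P H ↔
    (κ.1 ∈ P ∧ κ.2 ∈ Icc 1 H) ∧ ∀ k, ¬ (κ.1 : ℤ) ∣ s k - κ.2 := by
  classical
  unfold KK
  rw [mem_filter, mem_product]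

/-- a bound for the products `Wy` -/
noncomputable def W0 (f y : ℕ) : ℝ := ∏ l ∈ pz y, (1 + C2 f / (l : ℝ))

lemma Wy_le (d w z y : ℕ) : Wy f d w z y ≤ W0 f y := by
  unfold Wy W0
  apply prod_mono_one'
  · intro l hl
    unfold Sy at hl
    rw [mem_filter, mem_mid] at hl
    exact mem_pz.2 ⟨hl.2.1, hl.1.2.2⟩
  · intro l
    have := C2_pos f
    have : 0 ≤ C2 f / (l : ℝ) := by positivity
    linarith

open Classical in
lemma zero_card (P : Finset ℕ) (hP : ∀ p ∈ P, p.Prime) (H : ℕ) (κ : ℕ × ℕ) (hκ : κ ∈ KK s P H) :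
    ((KK s P H).filter (fun κ' => ∃ i j, Dt s κ.1 κ'.1 (κ.2 : ℤ) (κ'.2 : ℤ) i j = 0)).card ≤ f ^ 2 := by
  have h1 : (KK s P H).filter (fun κ' => ∃ i j, Dt s κ.1 κ'.1 (κ.2 : ℤ) (κ'.2 : ℤ) i j = 0) ⊆
      (univ : Finset (Fin f × Fin f)).image (fun q => (κ.1, ((κ.2 : ℤ) + s q.2 - s q.1).toNat)) := by
    intro κ' hκ'
    rw [mem_filter, mem_KK] at hκ'
    obtain ⟨⟨⟨p1, p2⟩, p3⟩, i, j, hD⟩ := hκ'
    rw [mem_KK] at hκ
    obtain ⟨⟨q1, q2⟩, q3⟩ := hκ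
    unfold Dt at hD
    have hp := hP _ q1
    have hp' := hP _ p1
    have e1 : (κ.1 : ℤ) * (s j - κ'.2) = κ'.1 * (s i - κ.2) := by linarith
    have e2 : (κ.1 : ℤ) ∣ κ'.1 * (s i - κ.2) := ⟨_, e1.symm⟩
    have e3 : κ.1 ∣ κ'.1 := by
      rcases (Nat.prime_iff_prime_int.1 hp).dvd_or_dvd e2 with h | h
      · exact Int.natCast_dvd_natCast.1 h
      · exact absurd h (q3 i)
    have e4 : κ.1 = κ'.1 := (Nat.prime_dvd_prime_iff_eq hp hp').1 e3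
    rw [← e4] at e1
    have hp0 : (κ.1 : ℤ) ≠ 0 := by exact_mod_cast hp.ne_zero
    have e5 := mul_left_cancel₀ hp0 e1
    rw [mem_image]
    refine ⟨(i, j), mem_univ _, ?_⟩
    ext
    · exact e4
    · simp only
      omega
  refine (card_le_card h1).trans (card_image_le.trans ?_)
  rw [card_univ, Fintype.card_prod, Fintype.card_fin, pow_two]

/-- the sum of the covariances with a fixed form -/
lemma row {D b x w z y K H : ℕ} (hf : 1 ≤ f) (hs : Sep s D) (hDw : D ≤ w) (hfw : 16 * f ^ 2 ≤ w) (hfw' : 8 * f + 1 ≤ w)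
    (hFL : FL f b x z) (hwz : w ≤ z) (hy : 1 ≤ y) (hCw : C2 f ≤ w) (hKy : 4 * f * K * f ^ 2 * w ≤ y)
    (P : Finset ℕ) (hP : ∀ p ∈ P, p.Prime) (X : ℕ) (κ : ℕ × ℕ) (hκ : κ ∈ KK s P H)
    (hsize : ∀ κ' ∈ KK s P H, ∀ i j, (Dt s κ.1 κ'.1 (κ.2 : ℤ) (κ'.2 : ℤ) i j).natAbs ≤ 2 ^ K) :
    ∑ κ' ∈ KK s P H, |Cov s κ.1 κ'.1 (κ.2 : ℤ) (κ'.2 : ℤ) X w z| ≤
      P.card * (X * ((Vz w) ^ (2 * f))⁻¹ * (H * ((2 * C3 f + 8 * (f : ℝ) ^ 2) / w + 6 * (1 / 2 : ℝ) ^ b) +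
        6 * (f : ℝ) ^ 2 * W0 f y) + H * (4 * (((Vz z) ^ (2 * f))⁻¹ * √(x : ℝ)))) +
      (f : ℝ) ^ 2 * (((Vz z) ^ f)⁻¹ * (5 * X * ((Vz w) ^ f)⁻¹ + ((Vz z) ^ (2 * f))⁻¹ * √(x : ℝ))) := by
  classical
  have hw1 : 1 ≤ w := by omega
  have hw0 : (0 : ℝ) < w := by exact_mod_cast hw1
  obtain ⟨⟨hκ1, hκ2⟩, hκ3⟩ := (mem_KK s).1 hκ
  have hpκ := hP _ hκ1
  have hnd : Nd s κ.1 (κ.2 : ℤ) := nd_prime s hpκ _ hκ3
  rw [← sum_filter_add_sum_filter_not (KK s P H) (fun κ' => ∃ i j, Dt s κ.1 κ'.1 (κ.2 : ℤ) (κ'.2 : ℤ) i j = 0), add_comm]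
  apply add_le_add
  · -- the good ones
    obtain ⟨G, hG⟩ : ∃ G : ℕ → Finset ℕ, G = fun (p' : ℕ) => (Icc 1 H).filter (fun a' : ℕ => (∀ k, ¬ (p' : ℤ) ∣ s k - a') ∧
      ∀ i j, Dt s κ.1 p' (κ.2 : ℤ) (a' : ℤ) i j ≠ 0) := ⟨_, rfl⟩
    have h1 : ∑ κ' ∈ (KK s P H).filter (fun κ' => ¬ ∃ i j, Dt s κ.1 κ'.1 (κ.2 : ℤ) (κ'.2 : ℤ) i j = 0),
        |Cov s κ.1 κ'.1 (κ.2 : ℤ) (κ'.2 : ℤ) X w z| =
        ∑ p' ∈ P, ∑ a' ∈ G p', |Cov s κ.1 p' (κ.2 : ℤ) (a' : ℤ) X w z| := by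
      rw [sum_sigma']
      apply sum_bij' (fun κ' _ => (⟨κ'.1, κ'.2⟩ : (_ : ℕ) × ℕ)) (fun σ _ => (σ.1, σ.2))
      · rintro ⟨p', a'⟩ h
        rw [mem_filter, mem_KK] at h
        push Not at h
        rw [mem_sigma, hG]
        simp only [mem_filter]
        exact ⟨h.1.1.1, h.1.1.2, h.1.2, h.2⟩
      · rintro ⟨p', a'⟩ h
        rw [mem_sigma, hG] at h
        simp only [mem_filter] at h
        rw [mem_filter, mem_KK]
        push Not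
        exact ⟨⟨⟨h.1, h.2.1⟩, h.2.2.1⟩, h.2.2.2⟩
      · rintro ⟨p', a'⟩ _
        rfl
      · rintro ⟨p', a'⟩ _
        rfl
      · rintro ⟨p', a'⟩ _
        rfl
    rw [h1]
    have h2 : ∀ p' ∈ P, ∑ a' ∈ G p', |Cov s κ.1 p' (κ.2 : ℤ) (a' : ℤ) X w z| ≤
        X * ((Vz w) ^ (2 * f))⁻¹ * (H * ((2 * C3 f + 8 * (f : ℝ) ^ 2) / w + 6 * (1 / 2 : ℝ) ^ b) +
        6 * (f : ℝ) ^ 2 * W0 f y) + H * (4 * (((Vz z) ^ (2 * f))⁻¹ * √(x : ℝ))) := by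
      intro p' hp'
      have hpp := hP _ hp'
      have hGs : G p' ⊆ Icc 1 H := by rw [hG]; exact filter_subset _ _
      have hGm : ∀ a' ∈ G p', (p', a') ∈ KK s P H ∧ ∀ i j, Dt s κ.1 p' (κ.2 : ℤ) (a' : ℤ) i j ≠ 0 := by
        intro a' ha'
        rw [hG] at ha'
        simp only [mem_filter] at ha'
        exact ⟨(mem_KK s).2 ⟨⟨hp', ha'.1⟩, ha'.2.1⟩, ha'.2.2⟩
      have h3 : ∀ a' ∈ G p', |Cov s κ.1 p' (κ.2 : ℤ) (a' : ℤ) X w z| ≤ X * ((Vz w) ^ (2 * f))⁻¹ *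
          (2 * (U11 s κ.1 p' (κ.2 : ℤ) (a' : ℤ) w z - 1) + 8 * (f : ℝ) ^ 2 / w + 6 * (1 / 2 : ℝ) ^ b) +
            4 * (((Vz z) ^ (2 * f))⁻¹ * √(x : ℝ)) := by
        intro a' ha'
        obtain ⟨g1, g2⟩ := hGm a' ha'
        exact cov_final s κ.1 p' (κ.2 : ℤ) (a' : ℤ) hf hs hDw hfw hFL hwz hnd
          (nd_prime s hpp _ ((mem_KK s).1 g1).2) (Or.inr hpκ) (Or.inr hpp) X
      refine (sum_le_sum h3).trans ?_
      rw [sum_add_distrib, ← mul_sum, sum_const, nsmul_eq_mul]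
      have h4 := avg_U11 s κ.1 p' (κ.2 : ℤ) (w := w) (z := z) (y := y) (K := K) (H := H) hw1 hy hCw hfw' hKy (Or.inr hpκ) (Or.inr hpp)
        (G p') hGs (fun a' ha' i j => ⟨(hGm a' ha').2 i j, hsize (p', a') (hGm a' ha').1 i j⟩)
      have h5 := Wy_le (f := f) κ.1 w z y
      have h6 : ((G p').card : ℝ) ≤ H := by
        have := card_le_card hGs
        rw [Nat.card_Icc, Nat.add_sub_cancel] at this
        exact_mod_cast this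
      have hX : (0 : ℝ) ≤ X := Nat.cast_nonneg _
      have hV : 0 ≤ ((Vz w) ^ (2 * f))⁻¹ := inv_nonneg.2 (pow_nonneg (Vz_pos _).le _)
      have hV' : 0 ≤ ((Vz z) ^ (2 * f))⁻¹ := inv_nonneg.2 (pow_nonneg (Vz_pos _).le _)
      have h7 : ∑ a' ∈ G p', (2 * (U11 s κ.1 p' (κ.2 : ℤ) (a' : ℤ) w z - 1) + 8 * (f : ℝ) ^ 2 / w + 6 * (1 / 2 : ℝ) ^ b) ≤
          H * ((2 * C3 f + 8 * (f : ℝ) ^ 2) / w + 6 * (1 / 2 : ℝ) ^ b) + 6 * (f : ℝ) ^ 2 * W0 f y := by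
        rw [sum_add_distrib, sum_add_distrib, ← mul_sum, sum_const, sum_const, nsmul_eq_mul, nsmul_eq_mul]
        have g1 : ((G p').card : ℝ) * (8 * (f : ℝ) ^ 2 / w) ≤ H * (8 * (f : ℝ) ^ 2 / w) :=
          mul_le_mul_of_nonneg_right h6 (by positivity)
        have g2 : ((G p').card : ℝ) * (6 * (1 / 2 : ℝ) ^ b) ≤ H * (6 * (1 / 2 : ℝ) ^ b) :=
          mul_le_mul_of_nonneg_right h6 (by positivity)
        have g3 : 3 * (f : ℝ) ^ 2 * Wy f κ.1 w z y ≤ 3 * (f : ℝ) ^ 2 * W0 f y := mul_le_mul_of_nonneg_left h5 (by positivity)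
        have g4 : (H : ℝ) * ((2 * C3 f + 8 * (f : ℝ) ^ 2) / w + 6 * (1 / 2 : ℝ) ^ b) =
          2 * (H * (C3 f / w)) + H * (8 * (f : ℝ) ^ 2 / w) + H * (6 * (1 / 2 : ℝ) ^ b) := by ring
        rw [g4]
        linarith
      have h8 := mul_le_mul_of_nonneg_left h7 (mul_nonneg hX hV)
      have h9 : ((G p').card : ℝ) * (4 * (((Vz z) ^ (2 * f))⁻¹ * √(x : ℝ))) ≤ H * (4 * (((Vz z) ^ (2 * f))⁻¹ * √(x : ℝ))) :=
        mul_le_mul_of_nonneg_right h6 (by positivity)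
      linarith
    refine (sum_le_sum h2).trans (le_of_eq ?_)
    rw [sum_const, nsmul_eq_mul]
  · -- the bad ones
    have h1 : ∀ κ' ∈ (KK s P H).filter (fun κ' => ∃ i j, Dt s κ.1 κ'.1 (κ.2 : ℤ) (κ'.2 : ℤ) i j = 0),
        |Cov s κ.1 κ'.1 (κ.2 : ℤ) (κ'.2 : ℤ) X w z| ≤ ((Vz z) ^ f)⁻¹ * (5 * X * ((Vz w) ^ f)⁻¹ + ((Vz z) ^ (2 * f))⁻¹ * √(x : ℝ)) :=
      fun κ' _ => cov_triv s hf hs hDw hfw hFL hwz κ.1 κ'.1 _ _ hnd (Or.inr hpκ) X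
    refine (sum_le_sum h1).trans ?_
    rw [sum_const, nsmul_eq_mul]
    apply mul_le_mul_of_nonneg_right
    · exact_mod_cast zero_card s P hP H κ hκ
    · have := (Vz_pos z).le
      have := (Vz_pos w).le
      positivity

lemma card_KK (P : Finset ℕ) (H : ℕ) : ((KK s P H).card : ℝ) ≤ P.card * H := by
  classical
  have h1 : (KK s P H).card ≤ P.card * H := by
    unfold KK
    refine (card_filter_le _ _).trans ?_
    rw [card_product, Nat.card_Icc, Nat.add_sub_cancel]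
  exact_mod_cast h1

end cov5

end Pool.Agent.E8helper16.SL
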