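import Mathlib

set_option autoImplicit false

/-! Numerical facts for large `N`. -/

namespace Pool.Agent.E8helper16.SL
open Finset Filter Topology

/-- the sieve level -/
noncomputable def zN (c0 N : ℕ) : ℕ := ⌊(N : ℝ) ^ (1 / (2 * (c0 : ℝ)))⌋₊

lemma zN_pow (c0 N : ℕ) (hc : 1 ≤ c0) : (zN c0 N) ^ (2 * c0) ≤ N := by
  have h0 : (0 : ℝ) ≤ (N : ℝ) ^ (1 / (2 * (c0 : ℝ))) := by positivity
  have h1 : ((zN c0 N : ℕ) : ℝ) ≤ (N : ℝ) ^ (1 / (2 * (c0 : ℝ))) := Nat.floor_le h0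
  have h2 : ((zN c0 N : ℕ) : ℝ) ^ (2 * c0) ≤ N := by
    calc ((zN c0 N : ℕ) : ℝ) ^ (2 * c0) ≤ ((N : ℝ) ^ (1 / (2 * (c0 : ℝ)))) ^ (2 * c0) :=
          pow_le_pow_left₀ (Nat.cast_nonneg _) h1 _
      _ = N := by
          rw [← Real.rpow_natCast, ← Real.rpow_mul (Nat.cast_nonneg _)]
          have hc0 : (c0 : ℝ) ≠ 0 := by exact_mod_cast (by omega : c0 ≠ 0)
          have : 1 / (2 * (c0 : ℝ)) * ((2 * c0 : ℕ) : ℝ) = 1 := by push_cast; field_simp
          rw [this, Real.rpow_one]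
  exact_mod_cast h2

lemma zN_tendsto (c0 : ℕ) (hc : 1 ≤ c0) : Tendsto (zN c0) atTop atTop := by
  unfold zN
  apply tendsto_nat_floor_atTop.comp
  apply (tendsto_rpow_atTop _).comp tendsto_natCast_atTop_atTop
  have : (0 : ℝ) < c0 := by exact_mod_cast (by omega : 0 < c0)
  positivity

lemma zN_log (c0 : ℕ) (hc : 1 ≤ c0) : ∀ᶠ N : ℕ in atTop, Real.log N ≤ 4 * c0 * Real.log (zN c0 N) := by
  have hc0 : (0 : ℝ) < c0 := by exact_mod_cast (by omega : 0 < c0)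
  have hlog : Tendsto (fun N : ℕ => Real.log (N : ℝ)) atTop atTop := Real.tendsto_log_atTop.comp tendsto_natCast_atTop_atTop
  filter_upwards [hlog.eventually_ge_atTop (4 * c0 * Real.log 2 + 1), (zN_tendsto c0 hc).eventually_ge_atTop 1,
    eventually_ge_atTop 1] with N h1 h2 h3
  have hN0 : (0 : ℝ) < N := by exact_mod_cast h3
  have hz0 : (0 : ℝ) < zN c0 N := by exact_mod_cast h2
  have h4 : (N : ℝ) ^ (1 / (2 * (c0 : ℝ))) < 2 * (zN c0 N : ℝ) := by
    have h5 := Nat.lt_floor_add_one ((N : ℝ) ^ (1 / (2 * (c0 : ℝ))))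
    have h6 : (1 : ℝ) ≤ zN c0 N := by exact_mod_cast h2
    unfold zN at h6 ⊢
    linarith
  have h5 : Real.log ((N : ℝ) ^ (1 / (2 * (c0 : ℝ)))) ≤ Real.log (2 * (zN c0 N : ℝ)) :=
    Real.log_le_log (by positivity) h4.le
  rw [Real.log_rpow hN0, Real.log_mul (by norm_num) hz0.ne'] at h5
  have h6 : Real.log N ≤ 2 * c0 * (Real.log 2 + Real.log (zN c0 N)) := by
    have := mul_le_mul_of_nonneg_left h5 (by positivity : (0 : ℝ) ≤ 2 * c0)
    calc Real.log N = 2 * c0 * (1 / (2 * (c0 : ℝ)) * Real.log N) := by field_simp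
      _ ≤ _ := this
  nlinarith

lemma log_tendsto : Tendsto (fun N : ℕ => Real.log (N : ℝ)) atTop atTop :=
  Real.tendsto_log_atTop.comp tendsto_natCast_atTop_atTop

/-- powers of the logarithm times a constant are at most small powers of `N` -/
lemma log_pow_le (A : ℝ) (k : ℕ) (e : ℝ) (he : 0 < e) : ∀ᶠ N : ℕ in atTop, A * Real.log N ^ k ≤ (N : ℝ) ^ e := by
  have h1 : (fun x : ℝ => Real.log x ^ (k : ℝ)) =o[atTop] fun x => x ^ e := isLittleO_log_rpow_rpow_atTop _ he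
  have h2 := h1.comp_tendsto (tendsto_natCast_atTop_atTop (R := ℝ))
  have h3 := h2.def (show (0 : ℝ) < 1 / (|A| + 1) by positivity)
  filter_upwards [h3, eventually_ge_atTop 1] with N h4 h5
  simp only [Function.comp, Real.norm_eq_abs, Real.rpow_natCast] at h4
  have hN1 : (1 : ℝ) ≤ N := by exact_mod_cast h5
  have hl : 0 ≤ Real.log N := Real.log_nonneg hN1
  rw [abs_of_nonneg (pow_nonneg hl k), abs_of_nonneg (Real.rpow_nonneg (Nat.cast_nonneg N) e), one_div, ← div_eq_inv_mul,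
    le_div_iff₀ (by positivity)] at h4
  have h6 : A * Real.log N ^ k ≤ Real.log N ^ k * (|A| + 1) := by
    have : A ≤ |A| + 1 := by linarith [le_abs_self A]
    have := mul_le_mul_of_nonneg_right this (pow_nonneg hl k)
    linarith
  linarith

/-- powers of the iterated logarithm are at most small powers of the logarithm -/
lemma loglog_pow_le (A : ℝ) (k : ℕ) (e : ℝ) (he : 0 < e) : ∀ᶠ N : ℕ in atTop,
    A * (Real.log (Real.log N)) ^ k ≤ (Real.log N) ^ e := by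
  have h1 : (fun x : ℝ => Real.log x ^ (k : ℝ)) =o[atTop] fun x => x ^ e := isLittleO_log_rpow_rpow_atTop _ he
  have h2 := h1.comp_tendsto log_tendsto
  have h3 := h2.def (show (0 : ℝ) < 1 / (|A| + 1) by positivity)
  filter_upwards [h3, log_tendsto.eventually_ge_atTop 1] with N h4 h5
  simp only [Function.comp, Real.norm_eq_abs, Real.rpow_natCast] at h4
  have hl : 0 ≤ Real.log (Real.log N) := Real.log_nonneg h5
  have hl0 : 0 ≤ Real.log N := by linarith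
  rw [abs_of_nonneg (pow_nonneg hl k), abs_of_nonneg (Real.rpow_nonneg hl0 e), one_div, ← div_eq_inv_mul,
    le_div_iff₀ (by positivity)] at h4
  have h6 : A * Real.log (Real.log N) ^ k ≤ Real.log (Real.log N) ^ k * (|A| + 1) := by
    have : A ≤ |A| + 1 := by linarith [le_abs_self A]
    have := mul_le_mul_of_nonneg_right this (pow_nonneg hl k)
    linarith
  linarith

/-- the numerical error tends to `0` -/
lemma err_tendsto (f : ℕ) (C5 C c : ℝ) (hC5 : 0 ≤ C5) (hC : 0 ≤ C) (hc : 0 ≤ c) :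
    Tendsto (fun b : ℕ => (C5 * b) ^ f * √(20 * (C * b) ^ f * (2 * √(c * (C * b) ^ (2 * f) * (1 / 2 : ℝ) ^ b) +
      (C * b) ^ f * (1 / 2 : ℝ) ^ b)) + (1 / 2 : ℝ) ^ b) atTop (𝓝 0) := by
  have hk : ∀ (k : ℕ) (A : ℝ), Tendsto (fun b : ℕ => A * ((b : ℝ) ^ k * (1 / 2 : ℝ) ^ b)) atTop (𝓝 0) := by
    intro k A
    have := (tendsto_pow_const_mul_const_pow_of_lt_one k (show (0 : ℝ) ≤ 1 / 2 by norm_num) (by norm_num)).const_mul A
    rwa [mul_zero] at this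
  have h1 : ∀ b : ℕ, (C5 * b) ^ f * √(20 * (C * b) ^ f * (2 * √(c * (C * b) ^ (2 * f) * (1 / 2 : ℝ) ^ b) +
      (C * b) ^ f * (1 / 2 : ℝ) ^ b)) =
      √(√((40 * C5 ^ (2 * f) * C ^ f) ^ 2 * (c * C ^ (2 * f)) * ((b : ℝ) ^ (8 * f) * (1 / 2 : ℝ) ^ b)) +
        20 * C5 ^ (2 * f) * C ^ (2 * f) * ((b : ℝ) ^ (4 * f) * (1 / 2 : ℝ) ^ b)) := by
    intro b
    have hb : (0 : ℝ) ≤ b := Nat.cast_nonneg _
    have e1 : (C5 * b) ^ f = √((C5 * b) ^ (2 * f)) := by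
      rw [mul_comm 2 f, pow_mul, Real.sqrt_sq (by positivity)]
    rw [e1, ← Real.sqrt_mul (by positivity)]
    congr 1
    have e2 : √((40 * C5 ^ (2 * f) * C ^ f) ^ 2 * (c * C ^ (2 * f)) * ((b : ℝ) ^ (8 * f) * (1 / 2 : ℝ) ^ b)) =
        (40 * C5 ^ (2 * f) * C ^ f * (b : ℝ) ^ (3 * f)) * √(c * (C * b) ^ (2 * f) * (1 / 2 : ℝ) ^ b) := by
      have hQ : ∀ Q x : ℝ, 0 ≤ Q → √(Q ^ 2 * x) = Q * √x := fun Q x hQ => by
        rw [Real.sqrt_mul (sq_nonneg _), Real.sqrt_sq hQ]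
      rw [← hQ _ _ (by positivity)]
      congr 1
      ring
    rw [e2]
    ring
  have h2 : Tendsto (fun b : ℕ => √(√((40 * C5 ^ (2 * f) * C ^ f) ^ 2 * (c * C ^ (2 * f)) * ((b : ℝ) ^ (8 * f) * (1 / 2 : ℝ) ^ b)) +
        20 * C5 ^ (2 * f) * C ^ (2 * f) * ((b : ℝ) ^ (4 * f) * (1 / 2 : ℝ) ^ b))) atTop (𝓝 √(√0 + 0)) := by
    apply (Real.continuous_sqrt.tendsto _).comp
    apply Tendsto.add
    · exact (Real.continuous_sqrt.tendsto _).comp (hk (8 * f) _)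
    · exact hk (4 * f) _
  rw [Real.sqrt_zero, add_zero, Real.sqrt_zero] at h2
  have h3 : Tendsto (fun b : ℕ => (1 / 2 : ℝ) ^ b) atTop (𝓝 0) := tendsto_pow_atTop_nhds_zero_of_lt_one (by norm_num) (by norm_num)
  have h4 := h2.add h3
  rw [add_zero] at h4
  refine h4.congr ?_
  intro b
  rw [h1 b]

end Pool.Agent.E8helper16.SL
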