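import Mathlib
import Pool.Agent.E8helper16.SL.G4
import Pool.Agent.E8helper16.SL.G5

set_option autoImplicit false

/-! The upper bound for the sums of the products of the von Mangoldt functions. -/

namespace Pool.Agent.E8helper16.SL
open Finset Filter Topology
open Pool.Agent.H373R2.T7 (Vz Vz_pos pz mem_pz)

theorem LL_sum (f : ℕ) (hf : 1 ≤ f) (D : ℕ) : ∃ C6 : ℝ, 1 ≤ C6 ∧ ∀ δ : ℝ, 0 < δ → ∃ N₀ : ℕ, ∀ N : ℕ, N₀ ≤ N →
    ∀ Y : ℕ, δ * N ≤ Y → Y ≤ N → ∀ s : Fin f → ℤ, Sep s D → (∀ i, |s i| ≤ 2 * N) →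
      ∑ n ∈ Icc 1 Y, LL s n ≤ C6 * Y := by
  classical
  obtain ⟨C0, hC01, hFLex⟩ := fl_exists f hf
  obtain ⟨C, hC1, hC⟩ := mert
  have h2b : Tendsto (fun b : ℕ => (2 : ℝ) ^ b) atTop atTop := tendsto_pow_atTop_atTop_of_one_lt (by norm_num)
  obtain ⟨b, hbC0, hb1, hb2⟩ := ((eventually_ge_atTop C0).and
    ((eventually_ge_atTop 1).and (h2b.eventually_ge_atTop (D + 16 * (f : ℝ) ^ 2)))).exists
  obtain ⟨x0, hx0⟩ := hFLex b hbC0
  obtain ⟨c0, hc0⟩ : ∃ c0, c0 = 16 * (C0 * b) := ⟨_, rfl⟩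
  have hc01 : 1 ≤ c0 := by
    rw [hc0]
    have : 1 ≤ C0 * b := Nat.mul_pos hC01 hb1
    omega
  have hff0 : (0 : ℝ) ≤ (f : ℝ) ^ 2 := by positivity
  have hD0 : (0 : ℝ) ≤ D := Nat.cast_nonneg _
  have w1 : D ≤ 2 ^ b := by
    have : (D : ℝ) ≤ ((2 ^ b : ℕ) : ℝ) := by push_cast; linarith
    exact_mod_cast this
  have w2 : 16 * f ^ 2 ≤ 2 ^ b := by
    have : ((16 * f ^ 2 : ℕ) : ℝ) ≤ ((2 ^ b : ℕ) : ℝ) := by push_cast; linarith
    exact_mod_cast this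
  obtain ⟨V, hV⟩ : ∃ V, V = ((Vz (2 ^ b)) ^ f)⁻¹ := ⟨_, rfl⟩
  have hV1 : 1 ≤ V := by rw [hV]; exact inv_ge_one _ f
  have hc0r : (0 : ℝ) ≤ c0 := Nat.cast_nonneg _
  refine ⟨(8 * c0 * C) ^ f * (4 * V + 1) + 1, by
    have : (0 : ℝ) ≤ (8 * c0 * C) ^ f * (4 * V + 1) := by positivity
    linarith, fun δ hδ => ?_⟩
  have hall := (((zN_tendsto c0 hc01).eventually_ge_atTop (x0 + 2 ^ b + 2)).and ((lam_cost c0 hc01 hC1 hC).and
    ((err_cond f b c0 0 hf hc01 hC1 hC).and ((log_tendsto.eventually_ge_atTop (1 + 1 / δ)).and (eventually_ge_atTop 3)))))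
  rw [eventually_atTop] at hall
  obtain ⟨N₀, hall⟩ := hall
  refine ⟨N₀, fun N hN Y hY1 hY2 s hs hsN => ?_⟩
  obtain ⟨hz, h4, ⟨h5a, h5b, _⟩, hL1', hN3⟩ := hall N hN
  obtain ⟨z, hzd⟩ : ∃ z, z = zN c0 N := ⟨_, rfl⟩
  rw [← hzd] at hz h4 h5a h5b
  obtain ⟨L, hL⟩ : ∃ L, L = Real.log N := ⟨_, rfl⟩
  rw [← hL] at h5a h5b hL1'
  have hδi : 0 < 1 / δ := by positivity
  have hL1 : 1 ≤ L := by linarith
  have hLδ : 1 ≤ δ * L ^ (f + 1) := by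
    have g1 : L ≤ L ^ (f + 1) := le_self_pow₀ hL1 (by omega)
    have g2 : 1 / δ ≤ L ^ (f + 1) := by linarith
    rw [div_le_iff₀ hδ] at g2
    linarith
  have hN3r : (3 : ℝ) ≤ N := by exact_mod_cast hN3
  have hN0 : (0 : ℝ) < N := by linarith
  have hLf0 : 0 < L ^ (f + 1) := by positivity
  have he0 : (0 : ℝ) < (1 / 2 : ℝ) ^ b := by positivity
  have he1 : (1 / 2 : ℝ) ^ b ≤ 1 := pow_le_one₀ (by norm_num) (by norm_num)
  have hNe : (N : ℝ) * (1 / 2 : ℝ) ^ b ≤ (δ * N) * L ^ (f + 1) := by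
    calc (N : ℝ) * (1 / 2 : ℝ) ^ b ≤ N * 1 := mul_le_mul_of_nonneg_left he1 hN0.le
      _ ≤ N * (δ * L ^ (f + 1)) := mul_le_mul_of_nonneg_left hLδ hN0.le
      _ = _ := by ring
  have hR0 : 0 ≤ ((Vz z) ^ (2 * f))⁻¹ * √((Nat.sqrt N : ℕ) : ℝ) := by
    have := (Vz_pos z).le
    positivity
  have hRY : ((Vz z) ^ (2 * f))⁻¹ * √((Nat.sqrt N : ℕ) : ℝ) ≤ Y := by
    have g1 : 4 * (((Vz z) ^ (2 * f))⁻¹ * √((Nat.sqrt N : ℕ) : ℝ)) ≤ δ * N :=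
      le_of_mul_le_mul_right (h5a.trans hNe) hLf0
    linarith
  obtain ⟨E, hE⟩ : ∃ E, E = Real.log (3 * N) ^ f * (f * (z * (Nat.log 2 (3 * N) + 1)) : ℕ) := ⟨_, rfl⟩
  rw [← hE] at h5b
  have hEY : E ≤ Y := (le_of_mul_le_mul_right (h5b.trans hNe) hLf0).trans hY1
  have hzx : z ^ c0 ≤ Nat.sqrt N := by
    rw [Nat.le_sqrt, ← pow_add, ← two_mul, hzd]
    exact zN_pow c0 N hc01
  rw [hc0] at hzx
  have hFL : FL f b (Nat.sqrt N) z := hx0 (Nat.sqrt N) z (by omega) hzx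
  have hwz : 2 ^ b ≤ z := by omega
  -- the sum of the weights
  have hY0 : (0 : ℝ) ≤ Y := Nat.cast_nonneg _
  have hlog : 0 ≤ Real.log (3 * N) := Real.log_nonneg (by linarith)
  have hVz := (Vz_pos z).le
  have h6 : ∑ n ∈ Icc 1 Y, nu s z (n : ℤ) ≤ (4 * V + 1) * Y := by
    have q := single_le s 1 0 hf hs w1 w2 hFL hwz (nd_one s 0) (Or.inl rfl) Y
    have q2 : ∑ m ∈ Icc 1 Y, nu s z (((1 : ℕ) : ℤ) * m - 0) = ∑ n ∈ Icc 1 Y, nu s z (n : ℤ) := by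
      apply sum_congr rfl
      intro m _
      congr 1
      push_cast
      ring
    rw [q2, ← hV] at q
    linarith
  have h7 : ∀ n ∈ Icc 1 Y, LL s (n : ℤ) ≤ (Real.log (3 * N) * Vz z) ^ f * nu s z n +
      (if n ∈ EE s z N then Real.log (3 * N) ^ f else 0) := by
    intro n hn
    rw [mem_Icc] at hn
    have q1 := nu_nonneg s z (n : ℤ)
    split_ifs with hEn
    · have q3 := LL_le_log s (N := N) (by omega) hsN (n := n) (by omega)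
      have q4 : 0 ≤ (Real.log (3 * N) * Vz z) ^ f * nu s z n := by positivity
      linarith
    · rw [add_zero, mul_pow]
      exact LL_le_nu s (by omega) hsN z (mem_Icc.2 ⟨hn.1, by omega⟩) hEn
  have h8 : ∑ n ∈ Icc 1 Y, (if n ∈ EE s z N then Real.log (3 * N) ^ f else 0) ≤ E := by
    rw [← sum_filter, sum_const, nsmul_eq_mul, hE, mul_comm]
    apply mul_le_mul_of_nonneg_left _ (by positivity)
    have h4 : (Icc 1 Y).filter (fun n => n ∈ EE s z N) ⊆ EE s z N := fun n hn => (mem_filter.1 hn).2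
    exact_mod_cast (card_le_card h4).trans (card_EE s hsN z)
  have h9 : (Real.log (3 * N) * Vz z) ^ f ≤ (8 * c0 * C) ^ f := pow_le_pow_left₀ (by positivity) h4 f
  have h10 : 0 ≤ ∑ n ∈ Icc 1 Y, nu s z (n : ℤ) := sum_nonneg fun n _ => nu_nonneg s z n
  calc _ ≤ _ := sum_le_sum h7
    _ = (Real.log (3 * N) * Vz z) ^ f * ∑ n ∈ Icc 1 Y, nu s z (n : ℤ) +
        ∑ n ∈ Icc 1 Y, (if n ∈ EE s z N then Real.log (3 * N) ^ f else 0) := by rw [sum_add_distrib, mul_sum]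
    _ ≤ (8 * c0 * C) ^ f * ((4 * V + 1) * Y) + Y := by
        apply add_le_add _ (h8.trans hEY)
        exact mul_le_mul h9 h6 h10 (by positivity)
    _ = _ := by ring

end Pool.Agent.E8helper16.SL
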