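import Mathlib
import Pool.Agent.E8helper16.SL.G6
import Pool.Agent.E8helper16.SL.H1
import Pool.Agent.E8helper16.SL.H2

set_option autoImplicit false

/-! The `L¹` bound for sums over windows. -/

namespace Pool.Agent.E8helper16.SL
open Finset Filter Topology
open Pool.Agent.H373R2.T7 (Vz Vz_pos pz mem_pz)

lemma RP_mid {C : ℝ} (hC1 : 1 ≤ C) (hC : ∀ N : ℕ, 2 ≤ N → (Vz N)⁻¹ ≤ C * Real.log N ∧ Real.log N ≤ C * (Vz N)⁻¹)
    {X Y : ℕ} (hX : 2 ≤ X) (hXY : X ≤ Y) : Real.log (Real.log Y / (C ^ 2 * Real.log X)) ≤ 2 * RP (mid X Y) := by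
  have hX2 : (2 : ℝ) ≤ X := by exact_mod_cast hX
  have hY2 : (2 : ℝ) ≤ Y := hX2.trans (by exact_mod_cast hXY)
  have hlX : 0 < Real.log X := Real.log_pos (by linarith)
  have hlY : 0 < Real.log Y := Real.log_pos (by linarith)
  have hVX := Vz_pos X
  have hVY := Vz_pos Y
  have hC0 : 0 < C := by linarith
  have hprod : ∏ l ∈ mid X Y, (1 - 1 / (l : ℝ)) = Vz Y / Vz X := by
    rw [Vz_split X Y hXY]
    field_simp
  have h1 : ∀ l ∈ mid X Y, -(2 * (1 / (l : ℝ))) ≤ Real.log (1 - 1 / (l : ℝ)) := by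
    intro l hl
    rw [mem_mid] at hl
    have hl2 : (2 : ℝ) ≤ l := by exact_mod_cast hl.2.2.two_le
    have hx0 : 0 < 1 / (l : ℝ) := by positivity
    have hx1 : 1 / (l : ℝ) ≤ 1 / 2 := one_div_le_one_div_of_le (by norm_num) hl2
    have h2 := Real.one_sub_inv_le_log_of_pos (show 0 < 1 - 1 / (l : ℝ) by linarith)
    refine le_trans ?_ h2
    have h3 : (1 - 1 / (l : ℝ))⁻¹ ≤ 1 + 2 * (1 / (l : ℝ)) := by
      rw [inv_le_iff_one_le_mul₀ (by linarith)]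
      nlinarith
    linarith
  have h2 : Real.log (Vz Y / Vz X) = ∑ l ∈ mid X Y, Real.log (1 - 1 / (l : ℝ)) := by
    rw [← hprod, Real.log_prod]
    intro l hl
    rw [mem_mid] at hl
    have hl2 : (2 : ℝ) ≤ l := by exact_mod_cast hl.2.2.two_le
    have hx1 : 1 / (l : ℝ) ≤ 1 / 2 := one_div_le_one_div_of_le (by norm_num) hl2
    linarith
  have h3 : -(2 * RP (mid X Y)) ≤ Real.log (Vz Y / Vz X) := by
    rw [h2]
    unfold RP
    rw [mul_sum, ← sum_neg_distrib]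
    exact sum_le_sum h1
  have h4 : Real.log (Real.log Y / (C ^ 2 * Real.log X)) ≤ Real.log (Vz X / Vz Y) := by
    apply Real.log_le_log (by positivity)
    rw [div_le_div_iff₀ (by positivity) hVY]
    have a1 := (hC X hX).1
    have a2 := (hC Y (by omega)).2
    have a3 : 1 ≤ Vz X * (C * Real.log X) := by
      have := mul_le_mul_of_nonneg_left a1 hVX.le
      rwa [mul_inv_cancel₀ hVX.ne'] at this
    have a4 : Real.log Y * Vz Y ≤ C := by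
      have := mul_le_mul_of_nonneg_right a2 hVY.le
      rwa [mul_assoc, inv_mul_cancel₀ hVY.ne', mul_one] at this
    calc Real.log Y * Vz Y ≤ C * 1 := by linarith
      _ ≤ C * (Vz X * (C * Real.log X)) := mul_le_mul_of_nonneg_left a3 hC0.le
      _ = _ := by ring
  have h5 : Real.log (Vz Y / Vz X) = - Real.log (Vz X / Vz Y) := by
    rw [← Real.log_inv, inv_div]
  rw [h5] at h3
  linarith

/-- the parameters -/
lemma params (R I : ℕ) (hR : 1 ≤ R) (J₀ : ℝ) : ∀ᶠ N : ℕ in atTop, ∃ i0 i1 : ℕ, I ≤ i0 ∧ i0 * R ≤ i1 ∧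
    Real.log N ^ (1 / (5 * (R : ℝ))) ≤ 2 * 2 ^ i0 ∧ (2 : ℝ) ^ i1 ≤ Real.log N ^ (1 / 5 : ℝ) ∧
    3 * (Real.log N ^ (1 / 5 : ℝ)) ^ 2 ≤ Real.log N ^ (1 / 2 : ℝ) ∧
    J₀ * Real.log N ^ (1 / 5 : ℝ) ≤ Real.log N ^ (1 / 2 : ℝ) ∧ Real.log N ^ (1 / 5 : ℝ) ≤ Real.log N ^ (1 / 2 : ℝ) := by
  have hR0 : (0 : ℝ) < R := by exact_mod_cast (by omega : 0 < R)
  have t1 : Tendsto (fun N : ℕ => Real.log N ^ (1 / (5 * (R : ℝ)))) atTop atTop :=
    (tendsto_rpow_atTop (by positivity)).comp log_tendsto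
  have t2 : Tendsto (fun N : ℕ => Real.log N ^ (1 / 10 : ℝ)) atTop atTop := (tendsto_rpow_atTop (by norm_num)).comp log_tendsto
  have t3 : Tendsto (fun N : ℕ => Real.log N ^ (3 / 10 : ℝ)) atTop atTop := (tendsto_rpow_atTop (by norm_num)).comp log_tendsto
  filter_upwards [t1.eventually_gt_atTop ((2 : ℝ) ^ I), t2.eventually_ge_atTop 3, t3.eventually_ge_atTop J₀,
    log_tendsto.eventually_ge_atTop 1] with N h1 h2 h3 h4
  obtain ⟨x, hx⟩ : ∃ x, x = Real.log N := ⟨_, rfl⟩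
  rw [← hx] at h1 h2 h3 h4 ⊢
  have hx0 : 0 < x := by linarith
  have hx5 : 1 ≤ x ^ (1 / 5 : ℝ) := Real.one_le_rpow h4 (by norm_num)
  have hfl : 1 ≤ ⌊x ^ (1 / 5 : ℝ)⌋₊ := by
    rw [Nat.one_le_floor_iff]
    exact hx5
  obtain ⟨i1, hi1⟩ : ∃ i1, i1 = Nat.log 2 ⌊x ^ (1 / 5 : ℝ)⌋₊ := ⟨_, rfl⟩
  have g1 : (2 : ℝ) ^ i1 ≤ x ^ (1 / 5 : ℝ) := by
    have a1 : 2 ^ i1 ≤ ⌊x ^ (1 / 5 : ℝ)⌋₊ := by rw [hi1]; exact Nat.pow_log_le_self 2 (by omega)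
    have a2 : ((2 ^ i1 : ℕ) : ℝ) ≤ (⌊x ^ (1 / 5 : ℝ)⌋₊ : ℝ) := by exact_mod_cast a1
    push_cast at a2
    exact a2.trans (Nat.floor_le (by positivity))
  have g2 : x ^ (1 / 5 : ℝ) ≤ ((2 : ℝ) ^ (i1 / R + 1)) ^ R := by
    have a1 : ⌊x ^ (1 / 5 : ℝ)⌋₊ < 2 ^ (i1 + 1) := by rw [hi1]; exact Nat.lt_pow_succ_log_self (by norm_num) _
    have a2 : i1 + 1 ≤ (i1 / R + 1) * R := by
      have := Nat.lt_mul_div_succ i1 (show 0 < R by omega)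
      rw [mul_comm] at this
      omega
    have a3 : ⌊x ^ (1 / 5 : ℝ)⌋₊ + 1 ≤ 2 ^ ((i1 / R + 1) * R) := (Nat.succ_le_of_lt a1).trans (Nat.pow_le_pow_right (by norm_num) a2)
    have a4 : ((⌊x ^ (1 / 5 : ℝ)⌋₊ : ℝ) + 1) ≤ (2 : ℝ) ^ ((i1 / R + 1) * R) := by exact_mod_cast a3
    rw [← pow_mul]
    exact (Nat.lt_floor_add_one _).le.trans a4
  have g3 : x ^ (1 / (5 * (R : ℝ))) ≤ 2 * 2 ^ (i1 / R) := by
    have e1 : x ^ (1 / (5 * (R : ℝ))) = (x ^ (1 / 5 : ℝ)) ^ (1 / (R : ℝ)) := by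
      rw [← Real.rpow_mul hx0.le]
      congr 1
      field_simp
    have e2 : (((2 : ℝ) ^ (i1 / R + 1)) ^ R) ^ (1 / (R : ℝ)) = 2 * 2 ^ (i1 / R) := by
      rw [← Real.rpow_natCast, ← Real.rpow_mul (by positivity), mul_one_div_cancel hR0.ne', Real.rpow_one, pow_succ]
      ring
    rw [e1, ← e2]
    exact Real.rpow_le_rpow (by positivity) g2 (by positivity)
  refine ⟨i1 / R, i1, ?_, Nat.div_mul_le_self i1 R, g3, g1, ?_, ?_, ?_⟩
  · by_contra hc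
    push Not at hc
    have a1 : (2 : ℝ) * 2 ^ (i1 / R) ≤ 2 ^ I := by
      rw [← pow_succ']
      exact pow_le_pow_right₀ (by norm_num) (by omega)
    linarith
  · have e : x ^ (1 / 2 : ℝ) = x ^ (1 / 10 : ℝ) * (x ^ (1 / 5 : ℝ)) ^ 2 := by
      rw [← Real.rpow_natCast, ← Real.rpow_mul hx0.le, ← Real.rpow_add hx0]
      norm_num
    rw [e]
    exact mul_le_mul_of_nonneg_right h2 (by positivity)
  · have e : x ^ (1 / 2 : ℝ) = x ^ (3 / 10 : ℝ) * x ^ (1 / 5 : ℝ) := by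
      rw [← Real.rpow_add hx0]
      norm_num
    rw [e]
    exact mul_le_mul_of_nonneg_right h3 (by positivity)
  · exact Real.rpow_le_rpow_of_exponent_le h4 (by norm_num)

lemma Gz_norm2 (c : ℕ → ℂ) (hc : ∀ h, ‖c h‖ ≤ 1) {p q H : ℕ} (hp : p.Prime) (hq : 1 ≤ q) (hqp : q ≤ p) (hqH : q ≤ H) (n : ℕ) :
    ‖Gz c H p n‖ ≤ 2 * ((H : ℝ) / q) := by
  classical
  rw [Gz_eq c hp, norm_neg]
  have hq0 : (0 : ℝ) < q := by exact_mod_cast hq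
  have hqp' : (q : ℝ) ≤ p := by exact_mod_cast hqp
  have hqH' : (q : ℝ) ≤ H := by exact_mod_cast hqH
  have h1 : ‖∑ h ∈ Icc 1 H, (if p ∣ n + h then (1 : ℂ) else 0) * (c h * lz ((n + h : ℕ) : ℤ))‖ ≤
      ∑ h ∈ Icc 1 H, (if p ∣ n + h then (1 : ℝ) else 0) := by
    refine (norm_sum_le _ _).trans (sum_le_sum fun h _ => ?_)
    split_ifs
    · rw [one_mul, norm_mul]
      exact mul_le_one₀ (hc h) (norm_nonneg _) (lz_norm _)
    · rw [zero_mul, norm_zero]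
  rw [sum_ind] at h1
  have h2 := (abs_le.1 (cnt_dvd p n H hp.one_le)).2
  have h3 : (H : ℝ) / p ≤ H / q := div_le_div_of_nonneg_left (Nat.cast_nonneg _) hq0 hqp'
  have h4 : 1 ≤ (H : ℝ) / q := by rw [one_le_div hq0]; exact hqH'
  linarith

lemma quad_exp (A : ℝ) : ∃ I : ℕ, ∀ i : ℕ, I ≤ i → 2 * (A * (i : ℝ) ^ 2) ^ 2 ≤ 2 ^ i := by
  have h1 := (tendsto_pow_const_mul_const_pow_of_lt_one 4 (show (0 : ℝ) ≤ 1 / 2 by norm_num) (by norm_num)).const_mul (2 * A ^ 2)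
  rw [mul_zero] at h1
  have h2 := h1.eventually (gt_mem_nhds (show (0 : ℝ) < 1 by norm_num))
  rw [eventually_atTop] at h2
  obtain ⟨I, hI⟩ := h2
  refine ⟨I, fun i hi => ?_⟩
  have h3 := hI i hi
  have h4 : (0 : ℝ) < 2 ^ i := by positivity
  have h5 : 2 * (A * (i : ℝ) ^ 2) ^ 2 = (2 * A ^ 2 * ((i : ℝ) ^ 4 * (1 / 2 : ℝ) ^ i)) * 2 ^ i := by
    have : (1 / 2 : ℝ) ^ i * 2 ^ i = 1 := by rw [← mul_pow]; norm_num
    calc 2 * (A * (i : ℝ) ^ 2) ^ 2 = 2 * A ^ 2 * (i : ℝ) ^ 4 * ((1 / 2 : ℝ) ^ i * 2 ^ i) := by rw [this]; ring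
      _ = _ := by ring
  rw [h5]
  calc _ ≤ 1 * (2 : ℝ) ^ i := mul_le_mul_of_nonneg_right h3.le h4.le
    _ = _ := one_mul _

end Pool.Agent.E8helper16.SL
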