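import Mathlib
import Pool.Agent.E8helper16.SL.H4

set_option autoImplicit false

/-! The exceptional shifts in a window. -/

namespace Pool.Agent.E8helper16.SL
open Finset Filter Topology

/-- the sums of the problem -/
noncomputable def SX {f : ℕ} (a : Fin f → ℕ) (b : ℕ → ℂ) (X t : ℕ) : ℂ :=
  ∑ n ∈ Icc 1 X, b n * ((∏ i, ArithmeticFunction.vonMangoldt (n + a i) : ℝ) : ℂ) * lz ((n + t : ℕ) : ℤ)

lemma LL_nat {f : ℕ} (a : Fin f → ℕ) (B n : ℕ) : LL (fun i => (a i : ℤ) - B) ((n + B : ℕ) : ℤ) =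
    ∏ i, ArithmeticFunction.vonMangoldt (n + a i) := by
  unfold LL vz
  apply prod_congr rfl
  intro i _
  congr 1
  push_cast
  omega

lemma duality {ι : Type} (E : Finset ι) (F : ι → ℂ) : ∃ c : ι → ℂ, (∀ h, ‖c h‖ ≤ 1) ∧ ∀ h ∈ E, c h * F h = ‖F h‖ := by
  refine ⟨fun h => if F h = 0 then 0 else (starRingEnd ℂ) (F h) / ‖F h‖, fun h => ?_, fun h _ => ?_⟩
  · simp only
    split_ifs with h0
    · simp
    · rw [norm_div, RCLike.norm_conj, Complex.norm_real, norm_norm, div_self (norm_ne_zero_iff.2 h0)]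
  · simp only
    split_ifs with h0
    · rw [h0]; simp
    · have h1 : ((‖F h‖ : ℝ) : ℂ) ≠ 0 := by
        rw [Ne, Complex.ofReal_eq_zero]
        exact norm_ne_zero_iff.2 h0
      rw [div_mul_eq_mul_div, mul_comm, Complex.mul_conj', pow_two, mul_div_assoc, div_self h1, mul_one]

open Classical in
/-- the exceptional shifts for a given `X` -/
lemma exc_X {f : ℕ} (a : Fin f → ℕ) (b : ℕ → ℂ) (hb : ∀ n, ‖b n‖ ≤ 1) (B X N H : ℕ) (hX : X + B ≤ N) (K : ℝ)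
    (hK : ∀ c : ℕ → ℂ, (∀ h, ‖c h‖ ≤ 1) → ∑ n ∈ Icc 1 N, LL (fun i => (a i : ℤ) - B) n *
      ‖∑ h ∈ Icc 1 H, c h * lz ((n + h : ℕ) : ℤ)‖ ≤ K) (t : ℝ) :
    (((Icc 1 H).filter (fun h => t < ‖SX a b X (B + h)‖)).card : ℝ) * t ≤ K := by
  obtain ⟨E, hE⟩ : ∃ E, E = (Icc 1 H).filter (fun h => t < ‖SX a b X (B + h)‖) := ⟨_, rfl⟩
  rw [← hE]
  obtain ⟨c, hc1, hc2⟩ := duality E (fun h => SX a b X (B + h))
  have h1 : (E.card : ℝ) * t ≤ ∑ h ∈ E, ‖SX a b X (B + h)‖ := by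
    rw [← nsmul_eq_mul, ← sum_const]
    apply sum_le_sum
    intro h hh
    rw [hE, mem_filter] at hh
    exact hh.2.le
  refine h1.trans ?_
  obtain ⟨c', hc'⟩ : ∃ c' : ℕ → ℂ, c' = fun h => if h ∈ E then c h else 0 := ⟨_, rfl⟩
  have hc'1 : ∀ h, ‖c' h‖ ≤ 1 := by
    intro h
    rw [hc']
    simp only
    split_ifs
    · exact hc1 h
    · simp
  have h2 : ((∑ h ∈ E, ‖SX a b X (B + h)‖ : ℝ) : ℂ) =
      ∑ n ∈ Icc 1 X, b n * ((∏ i, ArithmeticFunction.vonMangoldt (n + a i) : ℝ) : ℂ) *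
        ∑ h ∈ Icc 1 H, c' h * lz ((n + B + h : ℕ) : ℤ) := by
    rw [Complex.ofReal_sum, ← sum_congr rfl hc2]
    have h3 : ∀ h ∈ E, c h * SX a b X (B + h) = c' h * SX a b X (B + h) := by
      intro h hh
      rw [hc']
      simp only
      rw [if_pos hh]
    rw [sum_congr rfl h3]
    have h4 : ∑ h ∈ E, c' h * SX a b X (B + h) = ∑ h ∈ Icc 1 H, c' h * SX a b X (B + h) := by
      apply sum_subset
      · rw [hE]; exact filter_subset _ _
      · intro h _ hh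
        rw [hc']
        simp only
        rw [if_neg hh, zero_mul]
    rw [h4]
    unfold SX
    have h5 : ∀ h ∈ Icc 1 H, c' h * ∑ n ∈ Icc 1 X, b n * ((∏ i, ArithmeticFunction.vonMangoldt (n + a i) : ℝ) : ℂ) * lz ((n + (B + h) : ℕ) : ℤ) =
        ∑ n ∈ Icc 1 X, b n * ((∏ i, ArithmeticFunction.vonMangoldt (n + a i) : ℝ) : ℂ) * (c' h * lz ((n + B + h : ℕ) : ℤ)) := by
      intro h _
      rw [mul_sum]
      apply sum_congr rfl
      intro n _
      rw [add_assoc]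
      ring
    rw [sum_congr rfl h5, sum_comm]
    apply sum_congr rfl
    intro n _
    rw [mul_sum]
  have h6 : (0 : ℝ) ≤ ∑ h ∈ E, ‖SX a b X (B + h)‖ := sum_nonneg fun _ _ => norm_nonneg _
  have h7 : ∑ h ∈ E, ‖SX a b X (B + h)‖ = ‖((∑ h ∈ E, ‖SX a b X (B + h)‖ : ℝ) : ℂ)‖ := by
    rw [Complex.norm_real, Real.norm_eq_abs, abs_of_nonneg h6]
  rw [h7, h2]
  refine le_trans ?_ (hK c' hc'1)
  refine (norm_sum_le _ _).trans ?_
  have h8 : ∀ n ∈ Icc 1 X, ‖b n * ((∏ i, ArithmeticFunction.vonMangoldt (n + a i) : ℝ) : ℂ) *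
        ∑ h ∈ Icc 1 H, c' h * lz ((n + B + h : ℕ) : ℤ)‖ ≤ LL (fun i => (a i : ℤ) - B) ((n + B : ℕ) : ℤ) *
      ‖∑ h ∈ Icc 1 H, c' h * lz ((n + B + h : ℕ) : ℤ)‖ := by
    intro n _
    rw [LL_nat, norm_mul, norm_mul, Complex.norm_real, Real.norm_eq_abs,
      abs_of_nonneg (prod_nonneg fun i _ => ArithmeticFunction.vonMangoldt_nonneg)]
    apply mul_le_mul_of_nonneg_right _ (norm_nonneg _)
    exact mul_le_of_le_one_left (prod_nonneg fun i _ => ArithmeticFunction.vonMangoldt_nonneg) (hb n)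
  refine (sum_le_sum h8).trans ?_
  have h9 : ∑ n ∈ Icc 1 X, LL (fun i => (a i : ℤ) - B) ((n + B : ℕ) : ℤ) * ‖∑ h ∈ Icc 1 H, c' h * lz ((n + B + h : ℕ) : ℤ)‖ =
      ∑ n ∈ (Icc 1 X).image (fun n => n + B), LL (fun i => (a i : ℤ) - B) (n : ℤ) * ‖∑ h ∈ Icc 1 H, c' h * lz ((n + h : ℕ) : ℤ)‖ := by
    rw [sum_image (fun x _ y _ h => by simpa using h)]
  rw [h9]
  apply sum_le_sum_of_subset_of_nonneg
  · intro n hn
    rw [mem_image] at hn
    obtain ⟨m, hm, rfl⟩ := hn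
    rw [mem_Icc] at hm ⊢
    omega
  · intro n _ _
    exact mul_nonneg (LL_nonneg _ _) (norm_nonneg _)

/-- the difference of the sums for nearby `X` -/
lemma SX_diff {f : ℕ} (a : Fin f → ℕ) (b : ℕ → ℂ) (hb : ∀ n, ‖b n‖ ≤ 1) (X X' Y t : ℕ) (h1 : X' ≤ X) (h2 : X ≤ X' + Y) :
    ‖SX a b X t‖ ≤ ‖SX a b X' t‖ + ∑ n ∈ Icc 1 Y, LL (fun i => (a i : ℤ) + X') (n : ℤ) := by
  have e1 : SX a b X t = SX a b X' t + ∑ n ∈ Ioc X' X, b n * ((∏ i, ArithmeticFunction.vonMangoldt (n + a i) : ℝ) : ℂ) * lz ((n + t : ℕ) : ℤ) := by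
    unfold SX
    rw [← zero_add 1, ← Order.succ_eq_add_one, Finset.Icc_succ_left_eq_Ioc, Finset.Icc_succ_left_eq_Ioc]
    exact (Finset.sum_Ioc_consecutive _ (Nat.zero_le _) h1).symm
  rw [e1]
  refine (norm_add_le _ _).trans (add_le_add le_rfl ?_)
  refine (norm_sum_le _ _).trans ?_
  have h3 : ∀ n ∈ Ioc X' X, ‖b n * ((∏ i, ArithmeticFunction.vonMangoldt (n + a i) : ℝ) : ℂ) * lz ((n + t : ℕ) : ℤ)‖ ≤
      LL (fun i => (a i : ℤ)) (n : ℤ) := by
    intro n _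
    have h4 : LL (fun i => (a i : ℤ)) (n : ℤ) = ∏ i, ArithmeticFunction.vonMangoldt (n + a i) := by
      have := LL_nat a 0 n
      simpa using this
    rw [h4, norm_mul, norm_mul, Complex.norm_real, Real.norm_eq_abs,
      abs_of_nonneg (prod_nonneg fun i _ => ArithmeticFunction.vonMangoldt_nonneg)]
    have h5 : 0 ≤ ∏ i, ArithmeticFunction.vonMangoldt (n + a i) := prod_nonneg fun i _ => ArithmeticFunction.vonMangoldt_nonneg
    calc _ ≤ 1 * (∏ i, ArithmeticFunction.vonMangoldt (n + a i)) * 1 := by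
          apply mul_le_mul _ (lz_norm _) (norm_nonneg _) (by rw [one_mul]; exact h5)
          exact mul_le_mul_of_nonneg_right (hb n) h5
      _ = _ := by ring
  refine (sum_le_sum h3).trans ?_
  have h6 : ∑ n ∈ Icc 1 Y, LL (fun i => (a i : ℤ) + X') (n : ℤ) = ∑ n ∈ (Icc 1 Y).image (fun n => n + X'), LL (fun i => (a i : ℤ)) (n : ℤ) := by
    rw [sum_image (fun x _ y _ h => by simpa using h)]
    apply sum_congr rfl
    intro n _
    unfold LL
    apply prod_congr rfl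
    intro i _
    congr 1
    push_cast
    ring
  rw [h6]
  apply sum_le_sum_of_subset_of_nonneg
  · intro n hn
    rw [mem_Ioc] at hn
    rw [mem_image]
    exact ⟨n - X', by rw [mem_Icc]; omega, by omega⟩
  · intro n _ _
    exact LL_nonneg _ _

end Pool.Agent.E8helper16.SL
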